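import Pool.Agent.Y682.XF.ValB

/-!
# Twisted sums of modular symbols modulo two: one character at a time
-/

set_option autoImplicit false

open Finset NumberField IsCyclotomicExtension.Rat H300.HW

namespace Pool.Agent.X218.TP

open scoped Classical

open Pool.Agent.Y687 (Symb Symb2)

open Pool.Agent.Y682.XT Pool.Agent.Y682.XD Pool.Agent.Y682.XF

section

variable {q : ℕ} [NeZero q] {L : Type} [Field L] [NumberField L] [IsCyclotomicExtension {q} ℚ L]
  {K : IntermediateField ℚ L}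

variable {k : Type} [Field k] [CharP k 2]

/-- the symbols twisted by a character modulo two -/
theorem wf_ne2 {s : ℚ → ℤ} {a : ℕ → ℤ} (H : Symb2 s a) (hq : Odd q) (h1 : 1 < q)
    (hco : q.Coprime 14) (hre : IsRe q L K)
    {R : Finset (ZMod q)ˣ} (hR : IsHalf q L K R) (hSg : Sg q L K R)
    {t2 t7 : (ZMod q)ˣ} (ht2 : (t2 : ZMod q) = 2) (ht7 : (t7 : ZMod q) = 7)
    [Fintype (GG q L K)] (χ : GG q L K →* ℂˣ) (hχ : χ ≠ 1) (ψ : GG q L K →* k)
    (hg2 : χ (mkG q L K t2) ≠ 1) (hg7 : χ (mkG q L K t7) ≠ 1)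
    (hker : ∀ g, ψ g = 1 ↔ χ g = 1) {f : ℕ} [NeZero f] (hfq : f ∣ q) (hf1 : 1 < f)
    (hsame : ∀ p : ℕ, p.Prime → p ∣ q → p ∣ f) (χp : DirichletCharacter ℂ f)
    (hprim' : ∀ c : (ZMod q)ˣ, ((χ (mkG q L K c) : ℂˣ) : ℂ) =
      χp ((ZMod.unitsMap hfq c : (ZMod f)ˣ) : ZMod f)) (hP : χp.IsPrimitive) :
    ∑ g, ψ g * (wf L K s hfq g : k) ≠ 0 := by
  have hfo : Odd f := Odd.of_dvd_nat hq hfq
  have hfco : f.Coprime 14 := Nat.Coprime.coprime_dvd_left hfq hco
  -- nontriviality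
  have hψne : ψ ≠ 1 := by
    intro h
    apply hχ
    refine MonoidHom.ext fun g => ?_
    exact (hker g).1 (by rw [h]; rfl)
  -- the inverse character
  obtain ⟨ψi, hψi⟩ : ∃ ψi : GG q L K →* k, ∀ g, ψi g = ψ g⁻¹ :=
    ⟨ψ.comp (invMonoidHom : GG q L K →* GG q L K), fun g => rfl⟩
  have hkf : ∀ c : (ZMod q)ˣ, ZMod.unitsMap hfq c = 1 → ψ (mkG q L K c) = 1 := by
    intro c hc
    rw [hker]
    apply Units.ext
    rw [hprim', hc, Units.val_one, map_one, Units.val_one]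
  obtain ⟨ψf, hψf, hψf'⟩ := exists_psif hfq ψ hkf
  have hkf' : ∀ c : (ZMod q)ˣ, ZMod.unitsMap hfq c = 1 → ψi (mkG q L K c) = 1 := by
    intro c hc
    rw [hψi, ← map_inv]
    apply hkf
    rw [map_inv, hc, inv_one]
  obtain ⟨ψg, hψg, hψg'⟩ := exists_psif hfq ψi hkf'
  have hcomp : ∀ c, ψf (ZMod.unitsMap hfq c) = ψ (mkG q L K c) := fun c =>
    (DFunLike.congr_fun hψf c).symm
  have hcomp' : ∀ c, ψg (ZMod.unitsMap hfq c) = ψi (mkG q L K c) := fun c =>
    (DFunLike.congr_fun hψg c).symm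
  have hneg : ∀ x : (ZMod q)ˣ, mkG q L K (-x) = mkG q L K x := by
    intro x
    rw [← neg_one_mul, map_mul, mkG_one.2 hre, one_mul]
  have hev : ∀ x, ψf (-x) = ψf x := by
    intro x
    obtain ⟨c, rfl⟩ := ZMod.unitsMap_surjective hfq x
    rw [← unitsMap_neg, hcomp, hcomp, hneg]
  have hev' : ∀ x, ψg (-x) = ψg x := by
    intro x
    obtain ⟨c, rfl⟩ := ZMod.unitsMap_surjective hfq x
    rw [← unitsMap_neg, hcomp', hcomp', hneg]
  have hinv : ∀ x, ψg x = ψf x⁻¹ := by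
    intro x
    obtain ⟨c, rfl⟩ := ZMod.unitsMap_surjective hfq x
    rw [hcomp', hψi, ← map_inv (mkG q L K), ← map_inv (ZMod.unitsMap hfq), hcomp]
  have hψine : ψi ≠ 1 := by
    intro h
    apply hψne
    refine MonoidHom.ext fun g => ?_
    have h2 := DFunLike.congr_fun h g⁻¹
    rw [hψi, inv_inv] at h2
    rw [h2]; rfl
  -- primitivity
  have hPrm : Prm ψf := by
    intro f' h' hne'
    by_contra hcon
    push Not at hcon
    apply hne'
    have h2 : χp.FactorsThrough f' := by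
      rw [DirichletCharacter.factorsThrough_iff_ker_unitsMap h']
      intro κ hκ
      rw [MonoidHom.mem_ker] at hκ ⊢
      obtain ⟨c, rfl⟩ := ZMod.unitsMap_surjective hfq κ
      have h3 := hcon _ hκ
      rw [hcomp, hker] at h3
      apply Units.ext
      rw [MulChar.coe_toUnitHom, ← hprim', h3]
    have h3 := χp.conductor_dvd_of_mem_conductorSet ((DirichletCharacter.mem_conductorSet_iff χp).2 h2)
    rw [(DirichletCharacter.isPrimitive_def χp).1 hP] at h3
    exact Nat.dvd_antisymm h' h3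
  rw [sum_wf]
  have h5 : ∀ u : (ZMod f)ˣ, ψ (mkG q L K (sect hfq u)) = ψf u := fun u => (hψf' u).symm
  simp_rw [h5]
  have htt : ∀ {t : (ZMod q)ˣ} {n : ℕ}, (t : ZMod q) = n → ((ZMod.unitsMap hfq t : (ZMod f)ˣ) :
      ZMod f) = n := by
    intro t n h
    rw [ZMod.unitsMap_val, h, ZMod.cast_natCast hfq]
  have hTT : ∀ (ρ : GG q L K →* k) (ρf : (ZMod f)ˣ →* k), ρ ≠ 1 → (∀ x, ρf (-x) = ρf x) →
      ρ.comp (mkG q L K) = ρf.comp (ZMod.unitsMap hfq) → ∃ b, TT ρf b ≠ 0 := by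
    intro ρ ρf hρ hρe hρf
    obtain ⟨b, hb⟩ := hSg inferInstance k ρ hρ
    rw [sum_DD hq h1 hre hR, hρf, TT_level hfq hsame hq hf1 ρf hρe] at hb
    exact ⟨_, hb⟩
  refine symb_ne H hfo hf1 hfco hev hPrm hinv (t2 := ZMod.unitsMap hfq t2)
    (t7 := ZMod.unitsMap hfq t7) (by exact_mod_cast htt (n := 2) (by exact_mod_cast ht2))
    (by exact_mod_cast htt (n := 7) (by exact_mod_cast ht7)) ?_ ?_
    (hTT ψ ψf hψne hev hψf) (hTT ψi ψg hψine hev' hψg)
  · rw [hcomp, Ne, hker]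
    exact hg2
  · rw [hcomp, Ne, hker]
    exact hg7

/-- the twisted sum modulo two -/
theorem core3 (hH : S_HECKE) {s : ℚ → ℤ} {a : ℕ → ℤ} (H : Symb2 s a)
    (hevn : ∀ p : ℕ, p.Prime → ¬ p ∣ 14 → (2 : ℤ) ∣ a p) (hq : Odd q) (h1 : 1 < q)
    (hco : q.Coprime 14) (hre : IsRe q L K) (hs : SameP q L K)
    {R : Finset (ZMod q)ˣ} (hR : IsHalf q L K R) (hSg : Sg q L K R)
    {f d : ℕ} [NeZero f] [NeZero (f * d)] (hfq : f ∣ q) (hdsq : Squarefree d)
    (τ : (ZMod (f * d))ˣ → ℤ) (c : ℤ)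
    (hτ : ∀ u, (2 : ℤ) ∣ τ u - s (((u : ZMod (f * d)).val : ℚ) / ((f * d : ℕ) : ℚ)) - c)
    (χ' : GG q L K →* ℂˣ)
    (hd : ∀ p : ℕ, p.Prime → p ∣ d → ¬ p ∣ 14 * q ∧ ∀ t : (ZMod q)ˣ, (t : ZMod q) = (p : ZMod q) →
      χ' (mkG q L K t) ≠ 1)
    (hg2 : ∀ t : (ZMod q)ˣ, (t : ZMod q) = 2 → χ' (mkG q L K t) ≠ 1)
    (hg7 : ∀ t : (ZMod q)ˣ, (t : ZMod q) = 7 → χ' (mkG q L K t) ≠ 1)
    (ψ : GG q L K →* k)
    (hχ' : χ' ≠ 1) (hker : ∀ g, ψ g = 1 ↔ χ' g = 1) (hcc : (cf q L K χ').conductor = f) :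
    ∑ u ∈ PU (f * d), ψ (mkG q L K (sect hfq (ZMod.unitsMap (dvd_mul_right f d) u))) *
      ((τ u : ℤ) : k) ≠ 0 := by
  have hfG : Fintype (GG q L K) := Fintype.ofFinite _
  have hcne : cf q L K χ' ≠ 1 := fun h => hχ' (cf_inj (h.trans cf_one.symm))
  have hf1 : 1 < f := by
    have h2 : f ≠ 1 := fun h =>
      hcne (((cf q L K χ').eq_one_iff_conductor_eq_one).2 (hcc.trans h))
    have := NeZero.ne f
    omega
  have hfo : Odd f := Odd.of_dvd_nat hq hfq
  have hf14 : f.Coprime 14 := Nat.Coprime.coprime_dvd_left hfq hco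
  -- the character at the level `f`
  subst hcc
  have hval : ∀ c : (ZMod q)ˣ, ((χ' (mkG q L K c) : ℂˣ) : ℂ) =
      (cf q L K χ').primitiveCharacter ((ZMod.unitsMap hfq c :
        (ZMod (cf q L K χ').conductor)ˣ) : ZMod (cf q L K χ').conductor) := by
    intro c
    rw [← cf_apply]
    exact prim_unit _ c
  have hkf : ∀ c : (ZMod q)ˣ, ZMod.unitsMap hfq c = 1 → ψ (mkG q L K c) = 1 := by
    intro c hc
    rw [hker]
    apply Units.ext
    rw [hval, hc, Units.val_one, map_one, Units.val_one]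
  obtain ⟨ψf, hψf, hψf'⟩ := exists_psif hfq ψ hkf
  have hneg : ∀ x : (ZMod q)ˣ, mkG q L K (-x) = mkG q L K x := by
    intro x
    rw [← neg_one_mul, map_mul, mkG_one.2 hre, one_mul]
  have hcomp : ∀ c, ψf (ZMod.unitsMap hfq c) = ψ (mkG q L K c) := fun c =>
    (DFunLike.congr_fun hψf c).symm
  have hev : ∀ x, ψf (-x) = ψf x := by
    intro x
    obtain ⟨c, rfl⟩ := ZMod.unitsMap_surjective hfq x
    rw [← unitsMap_neg, hcomp, hcomp, hneg]
  have hψne : ψ ≠ 1 := by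
    intro h
    apply hχ'
    refine MonoidHom.ext fun g => ?_
    exact (hker g).1 (by rw [h]; rfl)
  -- the sum at the level `f`
  have hco2 : Nat.Coprime 2 q := by
    rw [Nat.coprime_two_left]; exact hq
  have hco7 : Nat.Coprime 7 q := (Nat.Coprime.coprime_dvd_right (by norm_num) hco).symm
  have hbase : NZ s ψf (cf q L K χ').conductor := by
    intro _ h
    have h5 := wf_ne2 H hq h1 hco hre hR hSg
      (t2 := ZMod.unitOfCoprime 2 hco2) (t7 := ZMod.unitOfCoprime 7 hco7)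
      (by rw [ZMod.coe_unitOfCoprime]; norm_num) (by rw [ZMod.coe_unitOfCoprime]; norm_num)
      χ' hχ' ψ (hg2 _ (by rw [ZMod.coe_unitOfCoprime]; norm_num))
      (hg7 _ (by rw [ZMod.coe_unitOfCoprime]; norm_num)) hker hfq hf1
      (hs _ (cf_mem χ') hcne) (cf q L K χ').primitiveCharacter hval
      (cf q L K χ').primitiveCharacter_isPrimitive
    rw [sum_wf] at h5
    intro h6
    apply h5
    rw [← h6]
    refine sum_congr rfl fun u _ => ?_
    rw [← hψf']
    congr 2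
    apply Units.ext
    rw [ZMod.unitsMap_val]
    exact (ZMod.cast_id _ _).symm
  have hprod := NZ_prod hH H.toSymb hf1 hfo hev hevn hbase d.primeFactors (by
    intro p hp
    have hpp := Nat.prime_of_mem_primeFactors hp
    obtain ⟨h5, h6⟩ := hd p hpp (Nat.dvd_of_mem_primeFactors hp)
    refine ⟨hpp, fun h7 => h5 (h7.trans (mul_dvd_mul_left 14 hfq)), fun t ht h8 => ?_⟩
    have hpc : p.Coprime q := by
      rw [Nat.Prime.coprime_iff_not_dvd hpp]
      exact fun h9 => h5 (dvd_mul_of_dvd_right h9 _)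
    have h9 := h6 (ZMod.unitOfCoprime p hpc) (ZMod.coe_unitOfCoprime p hpc)
    have h10 : ZMod.unitsMap hfq (ZMod.unitOfCoprime p hpc) = t := by
      apply Units.ext
      rw [ZMod.unitsMap_val, ZMod.coe_unitOfCoprime, ht, ZMod.cast_natCast hfq]
    apply h9
    rw [← hker, ← hcomp, h10]
    exact h8)
  rw [Nat.prod_primeFactors_of_squarefree hdsq] at hprod
  have h5 := hprod inferInstance (dvd_mul_right _ d)
  -- the sum of the character
  have hdo : Odd d := by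
    rw [← Nat.prod_primeFactors_of_squarefree hdsq]
    refine Finset.prod_induction _ Odd (fun _ _ => Odd.mul) odd_one fun r hr => ?_
    have hrp := Nat.prime_of_mem_primeFactors hr
    refine hrp.odd_of_ne_two ?_
    rintro rfl
    exact (hd 2 hrp (Nat.dvd_of_mem_primeFactors hr)).1 (dvd_mul_of_dvd_left (by norm_num) _)
  have hMo : Odd ((cf q L K χ').conductor * d) := hfo.mul hdo
  have hM1 : 1 < (cf q L K χ').conductor * d :=
    lt_of_lt_of_le hf1 (Nat.le_mul_of_pos_right _ hdo.pos)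
  have hψs : ∑ u ∈ PU ((cf q L K χ').conductor * d),
      (ψf.comp (ZMod.unitsMap (dvd_mul_right (cf q L K χ').conductor d))) u = 0 := by
    obtain ⟨g, hg⟩ : ∃ g, ψ g ≠ 1 := by
      by_contra hcon
      push Not at hcon
      exact hψne (MonoidHom.ext hcon)
    obtain ⟨c, rfl⟩ := mkG_surj g
    obtain ⟨x, hx⟩ := ZMod.unitsMap_surjective (dvd_mul_right (cf q L K χ').conductor d)
      (ZMod.unitsMap hfq c)
    refine psi_sum hMo hM1 (a := x) ?_ ?_
    · intro y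
      rw [MonoidHom.comp_apply, MonoidHom.comp_apply, unitsMap_neg, hev]
    · rw [MonoidHom.comp_apply, hx, hcomp]
      exact hg
  intro h6
  apply h5
  have h7 : ∀ u : (ZMod ((cf q L K χ').conductor * d))ˣ, ψ (mkG q L K (sect hfq (ZMod.unitsMap (dvd_mul_right (cf q L K χ').conductor d) u))) * ((τ u : ℤ) : k) =
      ψf (ZMod.unitsMap (dvd_mul_right _ d) u) *
        ((s (((u : ZMod ((cf q L K χ').conductor * d)).val : ℚ) /
          (((cf q L K χ').conductor * d : ℕ) : ℚ)) : ℤ) : k) +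
      (ψf.comp (ZMod.unitsMap (dvd_mul_right (cf q L K χ').conductor d))) u * (c : k) := by
    intro u
    have h8 : ψ (mkG q L K (sect hfq (ZMod.unitsMap (dvd_mul_right (cf q L K χ').conductor d) u))) = ψf (ZMod.unitsMap (dvd_mul_right _ d) u) := (hψf' _).symm
    rw [h8, MonoidHom.comp_apply, ← mul_add]
    congr 1
    obtain ⟨e, he⟩ := hτ u
    have h9 : τ u = s (((u : ZMod ((cf q L K χ').conductor * d)).val : ℚ) /
          (((cf q L K χ').conductor * d : ℕ) : ℚ)) + c + 2 * e := by linear_combination he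
    have h10 : (2 : k) = 0 := CharTwo.two_eq_zero
    rw [h9]
    push_cast
    linear_combination (e : k) * h10
  rw [sum_congr rfl fun u _ => h7 u, sum_add_distrib, ← sum_mul, hψs, zero_mul, add_zero] at h6
  exact h6

end

end Pool.Agent.X218.TP
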