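import Pool.Agent.X218.TP.Val
import Pool.Agent.Y682.XT.Ram
import Pool.Agent.Y682.XF.Fin
import Pool.Agent.Y688.XD.Hecke
import Pool.Agent.Y461.XD.Apev
import Pool.Agent.Y44.XF.Prim
import Pool.Agent.Y614.XF.Perd

/-!
# Deligne's formula for the twists of `X_0(14)`: assembly
-/

set_option autoImplicit false

open Finset NumberField IsCyclotomicExtension.Rat H300.HW MeasureTheory

namespace Pool.Agent.X218.TP

open scoped Classical

open Pool.Agent.W97.MT (ap E14 II)

open Pool.Agent.Y700 (WM)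

open Pool.Agent.Y682 (NCl)

open Pool.Agent.Y682.XT Pool.Agent.Y682.XD Pool.Agent.Y682.XF

open Pool.Agent.Y614.XF (rot mem_rot g2_rot g3_rot int_gen)

/-- `4 x³ + x² + 18 x - 23 = (2 y + x + 1)²` -/
def cub (x : ℝ) : ℝ := 4 * x ^ 3 + x ^ 2 + 18 * x - 23

/-- the real period -/
noncomputable def OmP : ℝ := 2 * ∫ x in {x : ℝ | 0 < cub x}, 1 / √(cub x)

/-- the imaginary period, divided by `i` -/
noncomputable def OmM : ℝ := 2 * ∫ x in {x : ℝ | cub x < 0}, 1 / √(-cub x)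

lemma omP_eq {P : PeriodPair} {Op Om : ℝ} (hOp : 0 < Op) (hOm : 0 < Om)
    (hg2 : P.g₂ = -215 / 12) (hg3 : P.g₃ = 5291 / 216)
    (hL : ∀ w : ℂ, w ∈ P.lattice ↔ ∃ a b : ℤ, 2 ∣ a - b ∧ w = a * Op + b * Om * Complex.I) :
    OmP = 2 * Op := by
  have key := int_gen P Op Om hOp hOm hL 1 (Or.inl rfl) hg2
      (by rw [hg3]; push_cast; ring) 1 one_pos cub (by
        intro v
        unfold cub
        ring)
  unfold OmP
  rw [key, Real.sqrt_one, div_one]

lemma omM_eq {P : PeriodPair} {Op Om : ℝ} (hOp : 0 < Op) (hOm : 0 < Om)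
    (hg2 : P.g₂ = -215 / 12) (hg3 : P.g₃ = 5291 / 216)
    (hL : ∀ w : ℂ, w ∈ P.lattice ↔ ∃ a b : ℤ, 2 ∣ a - b ∧ w = a * Op + b * Om * Complex.I) :
    OmM = 2 * Om := by
  have hL' : ∀ w : ℂ, w ∈ (rot P).lattice ↔
      ∃ a b : ℤ, 2 ∣ a - b ∧ w = a * Om + b * Op * Complex.I := by
    intro w
    rw [mem_rot]
    constructor
    · rintro ⟨l, hl, rfl⟩
      obtain ⟨a, b, ⟨c, hab⟩, rfl⟩ := (hL _).1 hl
      refine ⟨-b, a, ⟨-b - c, by omega⟩, ?_⟩
      push_cast
      linear_combination (b * Om : ℂ) * Complex.I_sq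
    · rintro ⟨a, b, ⟨c, hab⟩, rfl⟩
      refine ⟨b * Op + (-a : ℤ) * Om * Complex.I, (hL _).2 ⟨b, -a, ⟨b + c, by omega⟩, rfl⟩, ?_⟩
      push_cast
      linear_combination (a * Om : ℂ) * Complex.I_sq
  have key := int_gen (rot P) Om Op hOm hOp hL' (-1) (Or.inr rfl) (by rw [g2_rot, hg2])
      (by rw [g3_rot, hg3]; push_cast; ring) 1 one_pos (fun x => -cub (-x)) (by
        intro v
        unfold cub
        ring)
  rw [Real.sqrt_one, div_one] at key
  unfold OmM
  rw [← key]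
  congr 1
  have m1 : MeasurableSet {x : ℝ | cub x < 0} := by
    refine measurableSet_lt ?_ measurable_const
    unfold cub
    fun_prop
  have m2 : MeasurableSet {x : ℝ | 0 < -cub (-x)} := by
    refine measurableSet_lt measurable_const ?_
    unfold cub
    fun_prop
  rw [← integral_indicator m1, ← integral_indicator m2,
    ← integral_neg_eq_self (fun x => Set.indicator {x : ℝ | cub x < 0} (fun x => 1 / √(-cub x)) x)]
  refine integral_congr_ae (Filter.Eventually.of_forall fun x => ?_)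
  simp only [Set.indicator, Set.mem_setOf_eq, neg_pos]

/-- the constant of the formula: the period and the factor `i` -/
noncomputable def per {f : ℕ} (ρ : DirichletCharacter ℂ f) : ℂ :=
  if ρ (-1) = 1 then (OmP : ℂ) / 3 else Complex.I * OmM

/-- the values of the character generate this ring -/
noncomputable def vals {f : ℕ} (ρ : DirichletCharacter ℂ f) : Subalgebra ℤ ℂ :=
  Algebra.adjoin ℤ (Set.range fun a : ZMod f => ρ a)

/-- the `L`-function and the algebraic part of its central value -/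
structure IsPart {f : ℕ} [NeZero f] (ρ : DirichletCharacter ℂ f) (x : ℂ) : Prop where
  mem : x ∈ vals ρ
  value : ∃ L : ℂ → ℂ, Differentiable ℂ L ∧
    (∀ s : ℂ, 3 / 2 < s.re → HasProd (fun p : Nat.Primes =>
      (1 - (ap E14 p : ℂ) * ρ p * (p : ℂ) ^ (-s) +
        (if (p : ℕ) ∣ 14 then 0 else (p : ℂ)) * (ρ p) ^ 2 * (p : ℂ) ^ (-2 * s))⁻¹) (L s)) ∧
    gaussSum ρ⁻¹ (ZMod.stdAddChar (N := f)) * L 1 = per ρ * x ∧
    (L 1 = 0 ↔ x = 0)

/-- **assembly** -/
theorem final : ∃ x : (f : ℕ) → DirichletCharacter ℂ f → ℂ,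
    (∀ (f : ℕ) [NeZero f] (ρ : DirichletCharacter ℂ f), 1 < f → f.Coprime 14 → ρ.IsPrimitive →
      IsPart ρ (x f ρ) ∧ ∀ σ : ℂ →+* ℂ, x f (ρ.ringHomComp σ) = σ (x f ρ)) ∧
    ∀ (q : ℕ) [NeZero q], 1 < q → q.Coprime 14 →
      ∀ (F : Type) [Field F] [NumberField F] [IsCyclotomicExtension {q} ℚ F]
        (K : IntermediateField ℚ F), Odd (Module.finrank ℚ K) →
      ∀ (χ : DirichletCharacter ℂ q), χ ≠ 1 →
        (∀ σ ∈ K.fixingSubgroup, χ (galEquivZMod q F σ) = 1) →
        ((∃ n : ℕ, q = 3 ^ n) ∨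
          (Odd (Nat.card (NCl K)) ∧
            (IsPrimePow q ∨ ∀ F' : IntermediateField ℚ F, F' ≤ K → F' ≠ ⊥ →
              ∀ p : ℕ, p.Prime → p ∣ q → (p : ℤ) ∣ discr F') ∧
            χ ((2 : ℕ) : ZMod q) ≠ 1 ∧ χ ((7 : ℕ) : ZMod q) ≠ 1)) →
      ∀ (d : ℕ) [NeZero d] (δ : DirichletCharacter ℂ d), δ.IsPrimitive → Squarefree d →
        (∃ n : ℕ, δ ^ 2 ^ n = 1) →
        (∀ p : ℕ, p.Prime → p ∣ d → ¬ p ∣ 14 * q ∧ χ (p : ZMod q) ≠ 1) →
      ∃ a ∈ vals (DirichletCharacter.changeLevel (dvd_mul_right q d) χ *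
          DirichletCharacter.changeLevel (dvd_mul_left d q) δ).primitiveCharacter,
      ∃ b ∈ vals (DirichletCharacter.changeLevel (dvd_mul_right q d) χ *
          DirichletCharacter.changeLevel (dvd_mul_left d q) δ).primitiveCharacter,
        a * x _ (DirichletCharacter.changeLevel (dvd_mul_right q d) χ *
          DirichletCharacter.changeLevel (dvd_mul_left d q) δ).primitiveCharacter + 2 * b = 1 := by
  obtain ⟨s, t, P, Op, Om, hSy, g2, g3, hP⟩ := exists_syP
  have e1 : OmP = 2 * Op := omP_eq hSy.pos hSy.pos' g2 g3 hP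
  have e2 : OmM = 2 * Om := omM_eq hSy.pos hSy.pos' g2 g3 hP
  refine ⟨fun f ρ => if h : f ≠ 0 then (haveI : NeZero f := ⟨h⟩; X s t ρ) else 0, ?_, ?_⟩
  · intro f hf ρ h1 hco hρ
    simp only [dif_pos (NeZero.ne f)]
    refine ⟨⟨X_mem s t ρ, ?_⟩, fun σ => X_conj s t ρ σ⟩
    obtain ⟨g, hg1, hg2, hg3⟩ := Pool.Agent.Y687.exists_L hco ρ hρ
    have hv := val_prim hSy h1 hco ρ hg3
    have hper : per ρ = if ρ (-1) = 1 then 2 * (Op : ℂ) / 3 else 2 * Om * Complex.I := by
      unfold per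
      rw [e1, e2]
      split_ifs
      · push_cast; ring
      · push_cast; ring
    rw [← hper] at hv
    have hp0 : per ρ ≠ 0 := by
      have h3 : (Op : ℂ) ≠ 0 := by exact_mod_cast hSy.pos.ne'
      have h4 : (Om : ℂ) ≠ 0 := by exact_mod_cast hSy.pos'.ne'
      rw [hper]
      split_ifs
      · exact div_ne_zero (mul_ne_zero two_ne_zero h3) three_ne_zero
      · exact mul_ne_zero (mul_ne_zero two_ne_zero h4) Complex.I_ne_zero
    have hG0 : gaussSum ρ⁻¹ (ZMod.stdAddChar (N := f)) ≠ 0 :=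
      Pool.Agent.W440.TW.gauss_ne_zero _ (Pool.Agent.W440.TW.inv_primitive ρ hρ)
    refine ⟨g, hg1, hg2, hv, ?_, ?_⟩
    · intro h
      rw [h, mul_zero] at hv
      exact (mul_eq_zero.1 hv.symm).resolve_left hp0
    · intro h
      rw [h, mul_zero] at hv
      exact (mul_eq_zero.1 hv).resolve_left hG0
  · intro q _ h1 hco F _ _ _ K hodd χ hχ1 hχK hcond d _ δ hδp hdsq hδ hd
    have hz : NeZero (q * d) := ⟨Nat.mul_ne_zero (NeZero.ne q) (NeZero.ne d)⟩
    obtain ⟨n, hn⟩ := hδ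
    have hqo : Odd q := by
      have : q.Coprime 2 := Nat.Coprime.coprime_dvd_right (by norm_num) hco
      exact Nat.coprime_two_right.1 this
    have hY : χ ∈ YY q F K := (mem_YY q F K χ).2 hχK
    obtain ⟨χ', hχ'⟩ := cf_surj hY
    have hχ'1 : χ' ≠ 1 := by
      rintro rfl
      exact hχ1 (hχ'.symm.trans cf_one)
    have hval : ∀ t : (ZMod q)ˣ, χ' (mkG q F K t) = 1 ↔ χ (t : ZMod q) = 1 := by
      intro t
      rw [← hχ', cf_apply, Units.val_eq_one]
    have hre : IsRe q F K := re_of_odd hodd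
    -- the three cases
    obtain ⟨hs, hN, hg2, hg7⟩ : SameP q F K ∧ Odd (Nat.card (NCl K)) ∧
        (∀ t : (ZMod q)ˣ, (t : ZMod q) = 2 → χ' (mkG q F K t) ≠ 1) ∧
        (∀ t : (ZMod q)ˣ, (t : ZMod q) = 7 → χ' (mkG q F K t) ≠ 1) := by
      rcases hcond with ⟨m, rfl⟩ | ⟨h2, h3, h4, h5⟩
      · obtain ⟨m, rfl⟩ : ∃ j, m = j + 1 := by
          rcases m with _ | m
          · rw [pow_zero] at h1
            exact absurd h1 (lt_irrefl _)
          · exact ⟨m, rfl⟩
        obtain ⟨a2, a7, aN⟩ := three_hyp m F K hodd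
        have hgen : ∀ t : (ZMod (3 ^ (m + 1)))ˣ,
            (∀ x : GG (3 ^ (m + 1)) F K, x ∈ Subgroup.zpowers (mkG (3 ^ (m + 1)) F K t)) →
            χ' (mkG (3 ^ (m + 1)) F K t) ≠ 1 := by
          intro t hg h
          apply hχ'1
          refine MonoidHom.ext fun g => ?_
          obtain ⟨j, rfl⟩ := hg g
          show χ' (mkG (3 ^ (m + 1)) F K t ^ j) = 1
          rw [map_zpow, h, one_zpow]
        refine ⟨Pool.Agent.Y682.XT.same_pp ⟨3, m + 1, Nat.prime_three.prime, Nat.succ_pos m, rfl⟩,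
          aN, fun t ht => hgen t ?_, fun t ht => hgen t ?_⟩
        · exact gen_of_prime (K := K) (L := F) Pool.Agent.Y692.XT.inert Nat.prime_two
            (by rw [ht]; norm_num) a2
        · exact gen_of_prime (K := K) (L := F) Pool.Agent.Y692.XT.inert
            (by norm_num : Nat.Prime 7) (by rw [ht]; norm_num) a7
      · refine ⟨h3.elim Pool.Agent.Y682.XT.same_pp Pool.Agent.Y682.XT.same_of_ram, h2,
          fun t ht => ?_, fun t ht => ?_⟩
        · rw [Ne, hval, ht]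
          exact_mod_cast h4
        · rw [Ne, hval, ht]
          exact_mod_cast h5
    obtain ⟨φ, hφ⟩ := exists_phi q F
    obtain ⟨R, hR⟩ := Pool.Agent.Y682.XT.exists_half q F K hqo h1 hre
    obtain ⟨U, hU⟩ := exists_cyc Pool.Agent.Y363.XT.s_units hqo h1 hre hφ hR
    obtain ⟨hnar, -⟩ := narrow Pool.Agent.Y405.XT.s_det Pool.Agent.Y41.XT.s_l1
      Pool.Agent.Y125.XT.s_res hqo h1 hR hU hre hodd hs
    have hqd : q.Coprime d := by
      refine Nat.coprime_of_dvd ?_
      intro p hp hpq hpd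
      exact (hd p hp hpd).1 (dvd_mul_of_dvd_right hpq _)
    set Y : DirichletCharacter ℂ (q * d) := DirichletCharacter.changeLevel (dvd_mul_right q d) χ *
      DirichletCharacter.changeLevel (dvd_mul_left d q) δ with hYdef
    have hc : Y.conductor = (cf q F K χ').conductor * d := by
      rw [hχ']
      exact (Pool.Agent.Y44.XF.s_prim q d hqd χ δ hδp).1
    have hnz : NeZero Y.conductor := ⟨Y.conductor_ne_zero⟩
    simp only [dif_pos (NeZero.ne Y.conductor)]
    refine X_unit (L := F) (K := K) Pool.Agent.Y688.XD.s_hecke hSy.H (fun r hr => (hSy.im r hr).2)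
      Pool.Agent.Y461.XD.s_apev hqo h1 hco hre hs hodd hR (hnar.1 hN) hdsq hχ'1
      (fun p hp hpd => ⟨(hd p hp hpd).1, fun t ht => ?_⟩) hg2 hg7 hn Y.conductor hc
      Y.conductor_dvd_level Y.primitiveCharacter ?_
    · rw [Ne, hval, ht]
      exact (hd p hp hpd).2
    · rw [Y.changeLevel_primitiveCharacter, hχ']
      rfl

end Pool.Agent.X218.TP
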