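import Pool.Agent.X218.TP.Lat

/-!
# The twists of `E ⊗ M` by characters of two-power order: assembly
-/

set_option autoImplicit false

open Finset NumberField IsCyclotomicExtension.Rat H300.HW

namespace Pool.Agent.X218.TP

open scoped Classical

open Pool.Agent.W97.MT (ap E14 II)

open Pool.Agent.Y682 (NCl)

open Pool.Agent.Y682.XT Pool.Agent.Y682.XD Pool.Agent.Y682.XF

open Pool.Agent.X218.OT (rep_chars prim_cop prim_dvd)

/-- **assembly** -/
theorem lat (q : ℕ) [NeZero q] (hqp : IsPrimePow q) (hco : q.Coprime 14)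
    (F : Type) [Field F] [NumberField F] [IsCyclotomicExtension {q} ℚ F]
    (K : IntermediateField ℚ F) (hodd : Odd (Module.finrank ℚ K))
    {g : ℕ} (ρ : (ZMod q)ˣ →* GL (Fin g) ℤ) (hρ : ∀ u ∈ HH q F K, ρ u = 1)
    (hfix : ∀ v : Fin g → ℤ, (∀ u, (ρ u : Matrix (Fin g) (Fin g) ℤ).mulVec v = v) → v = 0)
    (hcl : 3 ∣ q ∨ (Odd (Nat.card (NCl K)) ∧ ∀ u : (ZMod q)ˣ, ((u : ZMod q) = 2 ∨ (u : ZMod q) = 7) →
      ∀ v : Fin g → ℤ, (ρ u : Matrix (Fin g) (Fin g) ℤ).mulVec v = v → v = 0)) :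
    ∃ x : (d : ℕ) → DirichletCharacter ℂ d → ℂ, ∀ (d : ℕ) [NeZero d] (δ : DirichletCharacter ℂ d),
      δ.IsPrimitive → Squarefree d → (∃ n : ℕ, δ ^ 2 ^ n = 1) →
      (∀ p : ℕ, p.Prime → p ∣ d → ¬ p ∣ 14 * q ∧ ∀ u : (ZMod q)ˣ, (u : ZMod q) = (p : ZMod q) →
        ∀ v : Fin g → ℤ, (ρ u : Matrix (Fin g) (Fin g) ℤ).mulVec v = v → v = 0) →
      (∃ H : ℂ → ℂ, Differentiable ℂ H ∧
        (∀ z : ℂ, 3 / 2 < z.re → HasProd (fun p : Nat.Primes => EF ρ δ p z) (H z)) ∧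
        gaussSum δ⁻¹ (ZMod.stdAddChar (N := d)) ^ g * H 1 = pe δ ^ g * x d δ) ∧
      (∀ σ : ℂ →+* ℂ, x d (cj σ δ) = σ (x d δ)) ∧
      ∃ m : ℤ, Odd m ∧ U2 (m * x d δ) := by
  obtain ⟨x₀, hx1, hx2⟩ := final
  have hfG : Fintype (GG q F K) := Fintype.ofFinite _
  have h1q : 1 < q := hqp.one_lt
  have hqo : Odd q := by
    have : q.Coprime 2 := Nat.Coprime.coprime_dvd_right (by norm_num) hco
    exact Nat.coprime_two_right.1 this
  have hre : IsRe q F K := re_of_odd hodd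
  have hoddG : Odd (Fintype.card (GG q F K)) := card_odd hodd
  obtain ⟨ψ, hdet, hψ1, hst⟩ := rep_chars (L := F) (K := K) Pool.Agent.Y153.AREP.s_rep ρ hρ hfix
  have hne : ∀ i, cf q F K (ψ i) ≠ 1 := fun i h => hψ1 i (cf_inj (h.trans cf_one.symm))
  have hK : ∀ i, ∀ σ ∈ K.fixingSubgroup, cf q F K (ψ i) (galEquivZMod q F σ) = 1 :=
    fun i => (mem_YY q F K _).1 (cf_mem (ψ i))
  refine ⟨fun d δ => if h : d ≠ 0 then
    (haveI : NeZero d := ⟨h⟩
    haveI : NeZero (q * d) := ⟨mul_ne_zero (NeZero.ne q) h⟩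
    xA x₀ (fun i => cf q F K (ψ i)) δ) else 0, ?_⟩
  intro d _ δ hδ hdsq hδ2 hd
  have hd0 : d ≠ 0 := NeZero.ne d
  have hz : NeZero (q * d) := ⟨mul_ne_zero (NeZero.ne q) hd0⟩
  simp only [dif_pos hd0]
  have hqd : q.Coprime d := by
    refine Nat.coprime_of_dvd ?_
    intro p hp hpq hpd
    exact (hd p hp hpd).1 (dvd_mul_of_dvd_right hpq _)
  have hd14 : d.Coprime 14 := by
    refine Nat.coprime_of_dvd ?_
    intro p hp hpd hp14
    exact (hd p hp hpd).1 (dvd_mul_of_dvd_left hp14 _)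
  have hdo : Odd d := by
    have : d.Coprime 2 := Nat.Coprime.coprime_dvd_right (by norm_num) hd14
    exact Nat.coprime_two_right.1 this
  have hcond : ∀ i, (XX δ (cf q F K (ψ i))).conductor = (cf q F K (ψ i)).conductor * d :=
    fun i => (Pool.Agent.Y44.XF.s_prim q d hqd (cf q F K (ψ i)) δ hδ).1
  have hprim : ∀ i, haveI : NeZero (XX δ (cf q F K (ψ i))).conductor :=
        ⟨(XX δ (cf q F K (ψ i))).conductor_ne_zero⟩
      IsPart (XX δ (cf q F K (ψ i))).primitiveCharacter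
        (x₀ _ (XX δ (cf q F K (ψ i))).primitiveCharacter) ∧
      ∀ σ : ℂ →+* ℂ, x₀ _ ((XX δ (cf q F K (ψ i))).primitiveCharacter.ringHomComp σ) =
        σ (x₀ _ (XX δ (cf q F K (ψ i))).primitiveCharacter) := by
    intro i
    have hz2 : NeZero (XX δ (cf q F K (ψ i))).conductor :=
      ⟨(XX δ (cf q F K (ψ i))).conductor_ne_zero⟩
    have hf1 : 1 < (XX δ (cf q F K (ψ i))).conductor := by
      rw [hcond]
      have h2 : (cf q F K (ψ i)).conductor ≠ 1 := fun h =>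
        hne i (((cf q F K (ψ i)).eq_one_iff_conductor_eq_one).2 h)
      have h3 := (cf q F K (ψ i)).conductor_ne_zero
      exact lt_of_lt_of_le (by omega : 1 < (cf q F K (ψ i)).conductor)
        (Nat.le_mul_of_pos_right _ (Nat.pos_of_ne_zero hd0))
    have hf14 : (XX δ (cf q F K (ψ i))).conductor.Coprime 14 :=
      Nat.Coprime.coprime_dvd_left (XX δ (cf q F K (ψ i))).conductor_dvd_level
        (Nat.Coprime.mul_left hco hd14)
    exact hx1 _ _ hf1 hf14 (XX δ (cf q F K (ψ i))).primitiveCharacter_isPrimitive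
  have hU : ∀ i, U2 (x₀ _ (XX δ (cf q F K (ψ i))).primitiveCharacter) := by
    intro i
    have hz2 : NeZero (XX δ (cf q F K (ψ i))).conductor :=
      ⟨(XX δ (cf q F K (ψ i))).conductor_ne_zero⟩
    obtain ⟨a, ha, b, hb, hab⟩ := hx2 q h1q hco F K hodd (cf q F K (ψ i)) (hne i) (hK i) (by
      rcases hcl with h3 | ⟨hN, h27⟩
      · left
        obtain ⟨l, k, hl, hk, rfl⟩ := hqp
        have hl' := hl.nat_prime
        have h4 : l = 3 := ((Nat.prime_dvd_prime_iff_eq Nat.prime_three hl').1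
          (Nat.prime_three.dvd_of_dvd_pow h3)).symm
        exact ⟨k, by rw [h4]⟩
      · right
        refine ⟨hN, Or.inl hqp, ?_, ?_⟩
        · have hc : Nat.Coprime 2 q := (Nat.Coprime.coprime_dvd_right (by norm_num) hco).symm
          have := ne_one_of hdet (u := ZMod.unitOfCoprime 2 hc)
            (h27 _ (Or.inl (by rw [ZMod.coe_unitOfCoprime]; norm_num))) i
          rwa [ZMod.coe_unitOfCoprime] at this
        · have hc : Nat.Coprime 7 q := (Nat.Coprime.coprime_dvd_right (by norm_num) hco).symm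
          have := ne_one_of hdet (u := ZMod.unitOfCoprime 7 hc)
            (h27 _ (Or.inr (by rw [ZMod.coe_unitOfCoprime]; norm_num))) i
          rwa [ZMod.coe_unitOfCoprime] at this) d δ hδ hdsq hδ2 (by
      intro p hp hpd
      refine ⟨(hd p hp hpd).1, ?_⟩
      have hc : Nat.Coprime p q := (Nat.Prime.coprime_iff_not_dvd hp).2 fun h =>
        (hd p hp hpd).1 (dvd_mul_of_dvd_right h _)
      have := ne_one_of hdet (u := ZMod.unitOfCoprime p hc)
        ((hd p hp hpd).2 _ (ZMod.coe_unitOfCoprime p hc)) i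
      rwa [ZMod.coe_unitOfCoprime] at this)
    exact ⟨vals_int (hprim i).1.mem, a, b, vals_int ha, vals_int hb, hab⟩
  refine ⟨xA_val hqp hdet hψ1 hqd hδ (fun i => even_cf hre (ψ i)) (fun i => (hprim i).1), ?_,
    xA_unit hqo hdo hδ hU⟩
  intro σ
  exact xA_conj hoddG hst δ (fun σ i => (hprim i).2 σ) σ

end Pool.Agent.X218.TP
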