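import Pool.Agent.X218.TP.Fin

/-!
# Galois action on the Gauss sums; numbers which are units at two
-/

set_option autoImplicit false

open Finset

namespace Pool.Agent.X218.TP

open scoped Classical

open Pool.Agent.Y682.XT Pool.Agent.Y682.XF

/-! ### Units at two -/

/-- an algebraic integer which is a unit at the primes above two -/
def U2 (z : ℂ) : Prop :=
  IsIntegral ℤ z ∧ ∃ u v : ℂ, IsIntegral ℤ u ∧ IsIntegral ℤ v ∧ u * z + 2 * v = 1

lemma isInt_two : IsIntegral ℤ (2 : ℂ) := by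
  have := isIntegral_algebraMap (R := ℤ) (A := ℂ) (x := 2)
  simpa using this

lemma isInt_int (n : ℤ) : IsIntegral ℤ (n : ℂ) := by
  have := isIntegral_algebraMap (R := ℤ) (A := ℂ) (x := n)
  simpa using this

lemma U2.mul {z w : ℂ} (hz : U2 z) (hw : U2 w) : U2 (z * w) := by
  obtain ⟨h1, u, v, hu, hv, h2⟩ := hz
  obtain ⟨h3, u', v', hu', hv', h4⟩ := hw
  refine ⟨h1.mul h3, u * u', v * (u' * w) + u * z * v' + 2 * v * v', hu.mul hu',
    ((hv.mul (hu'.mul h3)).add ((hu.mul h1).mul hv')).add ((isInt_two.mul hv).mul hv'), ?_⟩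
  linear_combination (u' * w + 2 * v') * h2 + h4

lemma U2.of_dvd {z w : ℂ} (hz : IsIntegral ℤ z) (hw : IsIntegral ℤ w) (h : U2 (z * w)) : U2 z := by
  obtain ⟨-, u, v, hu, hv, h2⟩ := h
  exact ⟨hz, u * w, v, hu.mul hw, hv, by linear_combination h2⟩

lemma U2.odd {n : ℤ} (h : Odd n) : U2 (n : ℂ) := by
  obtain ⟨k, rfl⟩ := h
  refine ⟨isInt_int _, 1, ((-k : ℤ) : ℂ), isIntegral_one, isInt_int _, ?_⟩
  push_cast
  ring

lemma U2.one : U2 1 := by
  have := U2.odd (n := 1) (by decide)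
  simpa using this

lemma U2.neg {z : ℂ} (h : U2 z) : U2 (-z) := by
  obtain ⟨h1, u, v, hu, hv, h2⟩ := h
  exact ⟨h1.neg, -u, v, hu.neg, hv, by linear_combination h2⟩

lemma U2.prod {ι : Type*} (s : Finset ι) (f : ι → ℂ) (h : ∀ i ∈ s, U2 (f i)) :
    U2 (∏ i ∈ s, f i) := by
  induction s using Finset.induction_on with
  | empty => rw [prod_empty]; exact U2.one
  | insert a s ha ih =>
    rw [prod_insert ha]
    exact (h a (mem_insert_self a s)).mul (ih fun i hi => h i (mem_insert_of_mem hi))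

lemma U2.pow {z : ℂ} (h : U2 z) (n : ℕ) : U2 (z ^ n) := by
  induction n with
  | zero => rw [pow_zero]; exact U2.one
  | succ n ih => rw [pow_succ]; exact ih.mul h

/-! ### Gauss sums -/

section

variable {N : ℕ} [NeZero N]

lemma std_one_pow (k : ℕ) : (ZMod.stdAddChar (N := N) 1) ^ k = ZMod.stdAddChar (N := N) (k : ZMod N) := by
  rw [← AddChar.map_nsmul_eq_pow, nsmul_eq_mul, mul_one]

/-- the action of the automorphisms on the roots of unity -/
lemma exists_a (N : ℕ) [NeZero N] (σ : ℂ →+* ℂ) : ∃ a : (ZMod N)ˣ,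
    ∀ x : ZMod N, σ (ZMod.stdAddChar x) = ZMod.stdAddChar ((a : ZMod N) * x) := by
  have h0 : ZMod.stdAddChar (N := N) 1 = Complex.exp (2 * Real.pi * Complex.I / N) := by
    have := ZMod.stdAddChar_coe (N := N) 1
    rw [Int.cast_one, Int.cast_one, mul_one] at this
    exact this
  have h1 : IsPrimitiveRoot (ZMod.stdAddChar (N := N) 1) N := by
    rw [h0]
    exact Complex.isPrimitiveRoot_exp N (NeZero.ne N)
  have h2 : IsPrimitiveRoot (σ (ZMod.stdAddChar (N := N) 1)) N :=
    h1.map_of_injective σ.injective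
  obtain ⟨a, ha, hco, h3⟩ := h1.isPrimitiveRoot_iff.1 h2
  refine ⟨ZMod.unitOfCoprime a hco, fun x => ?_⟩
  have h4 : ZMod.stdAddChar x = (ZMod.stdAddChar (N := N) 1) ^ x.val := by
    rw [std_one_pow, ZMod.natCast_zmod_val]
  rw [h4, map_pow, ← h3, ← pow_mul, std_one_pow, ZMod.coe_unitOfCoprime]
  congr 1
  push_cast
  rw [ZMod.natCast_zmod_val]

/-- restriction to a divisor -/
lemma a_dvd {f : ℕ} [NeZero f] (h : f ∣ N) {σ : ℂ →+* ℂ} {a : (ZMod N)ˣ}
    (ha : ∀ x : ZMod N, σ (ZMod.stdAddChar x) = ZMod.stdAddChar ((a : ZMod N) * x)) (x : ZMod f) :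
    σ (ZMod.stdAddChar x) = ZMod.stdAddChar ((ZMod.unitsMap h a : ZMod f) * x) := by
  obtain ⟨m, hm⟩ := h
  have hf0 : (f : ℂ) ≠ 0 := by exact_mod_cast NeZero.ne f
  have hm0 : (m : ℂ) ≠ 0 := by
    have : m ≠ 0 := by
      rintro rfl
      exact NeZero.ne N (by rw [hm, mul_zero])
    exact_mod_cast this
  have key : ∀ j : ℤ, ZMod.stdAddChar (N := f) (j : ZMod f) =
      ZMod.stdAddChar (N := N) ((j * m : ℤ) : ZMod N) := by
    intro j
    rw [ZMod.stdAddChar_coe, ZMod.stdAddChar_coe, hm]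
    congr 1
    push_cast
    field_simp
  have h1 : ∀ y : ZMod f, ((y.val : ℤ) : ZMod f) = y := fun y => by
    rw [Int.cast_natCast, ZMod.natCast_zmod_val]
  have h2 : σ (ZMod.stdAddChar x) = ZMod.stdAddChar (((((a : ZMod N).val * x.val : ℕ) : ℤ) :
      ZMod f)) := by
    conv_lhs => rw [← h1 x]
    rw [key, ha, key]
    congr 1
    push_cast
    rw [ZMod.natCast_zmod_val]
    ring
  rw [h2]
  congr 1
  push_cast
  rw [ZMod.natCast_zmod_val, ZMod.unitsMap_val]
  congr 1
  rw [ZMod.natCast_val]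

/-- **the action on a Gauss sum** -/
lemma gauss_conj' {f : ℕ} [NeZero f] (h : f ∣ N) {σ : ℂ →+* ℂ} {a : (ZMod N)ˣ}
    (ha : ∀ x : ZMod N, σ (ZMod.stdAddChar x) = ZMod.stdAddChar ((a : ZMod N) * x))
    (ρ : DirichletCharacter ℂ f) :
    (MulChar.ringHomComp ρ σ) (ZMod.unitsMap h a : ZMod f) *
        σ (gaussSum ρ (ZMod.stdAddChar (N := f))) =
      gaussSum (MulChar.ringHomComp ρ σ) (ZMod.stdAddChar (N := f)) := by
  rw [← gaussSum_mulShift (MulChar.ringHomComp ρ σ) (ZMod.stdAddChar (N := f)) (ZMod.unitsMap h a)]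
  congr 1
  unfold gaussSum
  rw [map_sum]
  refine sum_congr rfl fun x _ => ?_
  rw [map_mul, a_dvd h ha, MulChar.ringHomComp_apply, AddChar.mulShift_apply]

lemma gauss_int {f : ℕ} [NeZero f] (ρ : DirichletCharacter ℂ f) :
    IsIntegral ℤ (gaussSum ρ (ZMod.stdAddChar (N := f))) := by
  unfold gaussSum
  refine IsIntegral.sum _ fun x _ => ?_
  refine IsIntegral.mul ?_ ?_
  · by_cases hx : IsUnit x
    · obtain ⟨u, rfl⟩ := hx
      refine IsIntegral.of_pow (n := Fintype.card (ZMod f)ˣ) Fintype.card_pos ?_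
      rw [← map_pow, ← Units.val_pow_eq_pow_val, pow_card_eq_one, Units.val_one, map_one]
      exact isIntegral_one
    · rw [MulChar.map_nonunit _ hx]
      exact isIntegral_zero
  · refine IsIntegral.of_pow (n := f) (Nat.pos_of_ne_zero (NeZero.ne f)) ?_
    rw [← AddChar.map_nsmul_eq_pow, nsmul_eq_mul, ZMod.natCast_self, zero_mul,
      AddChar.map_zero_eq_one]
    exact isIntegral_one

/-! ### Conductors -/

lemma cond_ker {Y Y' : DirichletCharacter ℂ N} (h : ∀ u : (ZMod N)ˣ, Y (u : ZMod N) = 1 ↔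
    Y' (u : ZMod N) = 1) : Y.conductor = Y'.conductor := by
  have h1 : Y.toUnitHom.ker = Y'.toUnitHom.ker := by
    ext u
    rw [MonoidHom.mem_ker, MonoidHom.mem_ker, Units.ext_iff, Units.ext_iff, MulChar.coe_toUnitHom,
      MulChar.coe_toUnitHom, Units.val_one]
    exact h u
  unfold DirichletCharacter.conductor
  congr 1
  ext d
  rw [DirichletCharacter.mem_conductorSet_iff, DirichletCharacter.mem_conductorSet_iff]
  constructor
  · intro hd
    have h2 := (DirichletCharacter.factorsThrough_iff_ker_unitsMap (χ := Y) hd.dvd).1 hd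
    rw [h1] at h2
    exact (DirichletCharacter.factorsThrough_iff_ker_unitsMap (χ := Y') hd.dvd).2 h2
  · intro hd
    have h2 := (DirichletCharacter.factorsThrough_iff_ker_unitsMap (χ := Y') hd.dvd).1 hd
    rw [← h1] at h2
    exact (DirichletCharacter.factorsThrough_iff_ker_unitsMap (χ := Y) hd.dvd).2 h2

/-- the conjugate character -/
noncomputable def cj {N : ℕ} (σ : ℂ →+* ℂ) (Y : DirichletCharacter ℂ N) : DirichletCharacter ℂ N :=
  MulChar.ringHomComp Y σ

lemma cj_apply {N : ℕ} (σ : ℂ →+* ℂ) (Y : DirichletCharacter ℂ N) (u : ZMod N) :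
    cj σ Y u = σ (Y u) := rfl

lemma cond_conj (Y : DirichletCharacter ℂ N) (σ : ℂ →+* ℂ) :
    (cj σ Y).conductor = Y.conductor := by
  apply cond_ker
  intro u
  rw [cj_apply]
  constructor
  · intro h
    exact σ.injective (by rw [h, map_one])
  · intro h
    rw [h, map_one]

lemma level_conj {f : ℕ} (h : f ∣ N) (ρ : DirichletCharacter ℂ f) (σ : ℂ →+* ℂ) :
    DirichletCharacter.changeLevel h (cj σ ρ) =
      cj σ (DirichletCharacter.changeLevel h ρ) := by
  apply MulChar.ext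
  intro u
  rw [cj_apply, DirichletCharacter.changeLevel_eq_cast_of_dvd,
    DirichletCharacter.changeLevel_eq_cast_of_dvd, cj_apply]

/-- a function on all the primitive characters, as a function on the characters modulo `N` -/
lemma fun_prim {A : Type} (x : (f : ℕ) → DirichletCharacter ℂ f → A) (Y : DirichletCharacter ℂ N) :
    ∀ {f : ℕ} (_ : f = Y.conductor) (h : f ∣ N) (ρ : DirichletCharacter ℂ f),
      DirichletCharacter.changeLevel h ρ = Y → x f ρ = x _ Y.primitiveCharacter := by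
  intro f hf h ρ hρ
  subst hf
  congr 1
  apply DirichletCharacter.changeLevel_injective h
  rw [hρ, DirichletCharacter.changeLevel_primitiveCharacter]

lemma fun_conj {A : Type} (x : (f : ℕ) → DirichletCharacter ℂ f → A) (Y : DirichletCharacter ℂ N)
    (σ : ℂ →+* ℂ) : x _ (cj σ Y.primitiveCharacter) =
      x _ (cj σ Y).primitiveCharacter := by
  refine fun_prim x (cj σ Y) (cond_conj Y σ).symm Y.conductor_dvd_level _ ?_
  rw [level_conj, DirichletCharacter.changeLevel_primitiveCharacter]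

/-- **the action on the Gauss sum of the primitive character** -/
lemma gsi_conj {σ : ℂ →+* ℂ} {a : (ZMod N)ˣ}
    (ha : ∀ x : ZMod N, σ (ZMod.stdAddChar x) = ZMod.stdAddChar ((a : ZMod N) * x))
    (Y : DirichletCharacter ℂ N) :
    σ (gsi Y) = (cj σ Y) (a : ZMod N) * gsi (cj σ Y) := by
  have : NeZero Y.conductor := ⟨Y.conductor_ne_zero⟩
  have : NeZero (cj σ Y).conductor := ⟨(cj σ Y).conductor_ne_zero⟩
  have h1 : (cj σ Y.primitiveCharacter⁻¹)
      ((ZMod.unitsMap Y.conductor_dvd_level a : (ZMod Y.conductor)ˣ) : ZMod Y.conductor) *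
      σ (gaussSum (Y.primitiveCharacter)⁻¹ (ZMod.stdAddChar (N := Y.conductor))) =
      gaussSum (cj σ Y.primitiveCharacter⁻¹) (ZMod.stdAddChar (N := Y.conductor)) :=
    gauss_conj' Y.conductor_dvd_level ha (Y.primitiveCharacter)⁻¹
  have h2 : gaussSum (cj σ (Y.primitiveCharacter)⁻¹)
      (ZMod.stdAddChar (N := Y.conductor)) = gsi (cj σ Y) := by
    unfold gsi
    refine gauss_congr Y.conductor_dvd_level (cj σ Y).conductor_dvd_level
      (cond_conj Y σ).symm ?_
    rw [level_conj, map_inv, map_inv, DirichletCharacter.changeLevel_primitiveCharacter,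
      DirichletCharacter.changeLevel_primitiveCharacter]
    apply MulChar.ext
    intro u
    rw [cj_apply, MulChar.inv_apply_eq_inv', MulChar.inv_apply_eq_inv',
      cj_apply, map_inv₀]
  rw [h2] at h1
  rw [← h1]
  have h3 : (cj σ Y.primitiveCharacter⁻¹)
      ((ZMod.unitsMap Y.conductor_dvd_level a : (ZMod Y.conductor)ˣ) : ZMod Y.conductor) =
      ((cj σ Y) (a : ZMod N))⁻¹ := by
    rw [cj_apply, MulChar.inv_apply_eq_inv', ← prim_unit, map_inv₀,
      cj_apply]
  rw [h3]
  have h4 : (cj σ Y) (a : ZMod N) ≠ 0 := by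
    exact (a.isUnit.map (cj σ Y)).ne_zero
  show σ (gsi Y) = _ * (_ * σ (gsi Y))
  rw [← mul_assoc, mul_inv_cancel₀ h4, one_mul]

end

end Pool.Agent.X218.TP
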