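import Pool.Agent.X218.TP.Gau
import Pool.Agent.X218.OT.An
import Pool.Agent.Y153.AREP

/-!
# The twists of `E ⊗ M` by characters of two-power order
-/

set_option autoImplicit false

open Finset NumberField IsCyclotomicExtension.Rat H300.HW

namespace Pool.Agent.X218.TP

open scoped Classical

open Pool.Agent.W97.MT (ap E14 II)

open Pool.Agent.Y682 (NCl)

open Pool.Agent.Y682.XT Pool.Agent.Y682.XD Pool.Agent.Y682.XF

open Pool.Agent.X218.OT (rep_chars prim_cop prim_dvd)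

section defs

variable {m g d : ℕ} (ρ : (ZMod m)ˣ →* GL (Fin g) ℤ) (δ : DirichletCharacter ℂ d)

/-- the Euler factor at `p` of the twist of `E ⊗ M` by `δ` -/
noncomputable def EF (p : ℕ) (z : ℂ) : ℂ :=
  if h : p.Coprime m then
    (1 - ((ap E14 p : ℂ) * δ (p : ZMod d) * (p : ℂ) ^ (-z)) •
      (ρ (ZMod.unitOfCoprime p h) : Matrix (Fin g) (Fin g) ℤ).map (Int.cast : ℤ → ℂ) +
    ((if p ∣ 14 then 0 else (p : ℂ)) * δ (p : ZMod d) ^ 2 * (p : ℂ) ^ (-2 * z)) •
      ((ρ (ZMod.unitOfCoprime p h) : Matrix (Fin g) (Fin g) ℤ).map (Int.cast : ℤ → ℂ)) ^ 2).det⁻¹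
  else 1

/-- the period -/
noncomputable def pe : ℂ := if δ (-1) = 1 then (OmP : ℂ) else Complex.I * OmM

end defs

section

variable {q : ℕ} [NeZero q] {F : Type} [Field F] [NumberField F] [IsCyclotomicExtension {q} ℚ F]
  {K : IntermediateField ℚ F}

/-- a matrix without fixed vectors does not have the eigenvalue one -/
lemma ne_one_of {g : ℕ} {ρ : (ZMod q)ˣ →* GL (Fin g) ℤ} {ψ : Fin g → (GG q F K →* ℂˣ)}
    (hdet : ∀ (x y : ℂ) (u : (ZMod q)ˣ),
        (1 - x • ((ρ u : Matrix (Fin g) (Fin g) ℤ).map (Int.cast : ℤ → ℂ)) +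
          y • ((ρ u : Matrix (Fin g) (Fin g) ℤ).map (Int.cast : ℤ → ℂ)) ^ 2).det =
            ∏ i, (1 - x * cf q F K (ψ i) (u : ZMod q) + y * cf q F K (ψ i) (u : ZMod q) ^ 2))
    {u : (ZMod q)ˣ} (hu : ∀ v : Fin g → ℤ, (ρ u : Matrix (Fin g) (Fin g) ℤ).mulVec v = v → v = 0)
    (i : Fin g) : cf q F K (ψ i) (u : ZMod q) ≠ 1 := by
  intro h
  have h1 := hdet 1 0 u
  rw [zero_smul, add_zero, one_smul, prod_eq_zero (mem_univ i) (by rw [h]; ring)] at h1
  have h2 : ((1 - (ρ u : Matrix (Fin g) (Fin g) ℤ)).det : ℂ) = 0 := by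
    have h3 := RingHom.map_det (Int.castRingHom ℂ) (1 - (ρ u : Matrix (Fin g) (Fin g) ℤ))
    rw [eq_intCast] at h3
    rw [h3, ← h1]
    congr 1
    ext i j
    simp only [RingHom.mapMatrix_apply, Matrix.map_apply, Matrix.sub_apply, eq_intCast,
      Int.cast_sub, Matrix.one_apply]
    split_ifs <;> simp
  have h3 : (1 - (ρ u : Matrix (Fin g) (Fin g) ℤ)).det = 0 := by exact_mod_cast h2
  obtain ⟨v, hv, hv'⟩ := Matrix.exists_mulVec_eq_zero_iff.2 h3
  apply hv
  apply hu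
  rw [Matrix.sub_mulVec, Matrix.one_mulVec, sub_eq_zero] at hv'
  exact hv'.symm

variable [Fintype (GG q F K)]

/-- the inverses -/
lemma exists_pi_inv (hodd : Odd (Fintype.card (GG q F K))) {n : ℕ} {ψ : Fin n → (GG q F K →* ℂˣ)}
    (hst : ∀ a : ℕ, a.Coprime (Fintype.card (GG q F K)) →
      ∃ π : Equiv.Perm (Fin n), ∀ i, ψ i ^ a = ψ (π i)) :
    ∃ π : Equiv.Perm (Fin n), ∀ i, (ψ i)⁻¹ = ψ (π i) := by
  have hpos : 0 < Fintype.card (GG q F K) := Fintype.card_pos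
  obtain ⟨π, hπ⟩ := hst (Fintype.card (GG q F K) * 2 - 1) (by
    have h1 : (Fintype.card (GG q F K) * 2 - 1).Coprime (Fintype.card (GG q F K) * 2 - 1 + 1) := by
      simp
    rw [Nat.sub_add_cancel (by omega)] at h1
    exact Nat.Coprime.coprime_mul_right_right h1)
  refine ⟨π, fun i => ?_⟩
  rw [← hπ i]
  refine MonoidHom.ext fun g => ?_
  rw [MonoidHom.inv_apply, MonoidHom.pow_apply, eq_comm, eq_inv_iff_mul_eq_one, ← pow_succ,
    Nat.sub_add_cancel (by omega), pow_mul, ← map_pow, pow_card_eq_one, map_one, one_pow]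

/-- the determinant is one -/
lemma prod_one (hodd : Odd (Fintype.card (GG q F K))) {n : ℕ} {ψ : Fin n → (GG q F K →* ℂˣ)}
    (hst : ∀ a : ℕ, a.Coprime (Fintype.card (GG q F K)) →
      ∃ π : Equiv.Perm (Fin n), ∀ i, ψ i ^ a = ψ (π i)) (x : GG q F K) : ∏ i, ψ i x = 1 := by
  obtain ⟨π, hπ⟩ := exists_pi_inv hodd hst
  have h1 : (∏ i, ψ i x) ^ 2 = 1 := by
    have h2 : ∏ i, ψ i x = ∏ i, (ψ i x)⁻¹ := by
      rw [← Equiv.prod_comp π (fun i => ψ i x)]
      refine prod_congr rfl fun i _ => ?_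
      rw [← hπ i, MonoidHom.inv_apply]
    rw [pow_two]
    nth_rewrite 2 [h2]
    rw [← prod_mul_distrib]
    exact prod_eq_one fun i _ => mul_inv_cancel _
  have h2 : (∏ i, ψ i x) ^ Fintype.card (GG q F K) = 1 := by
    rw [← prod_pow]
    refine prod_eq_one fun i _ => ?_
    rw [← map_pow, pow_card_eq_one, map_one]
  obtain ⟨j, hj⟩ := hodd
  rw [hj, pow_succ, pow_mul, h1, one_pow, one_mul] at h2
  exact h2

/-- the action of an automorphism of the coefficients permutes the characters -/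
lemma exists_pi_conj {n : ℕ} {ψ : Fin n → (GG q F K →* ℂˣ)}
    (hst : ∀ a : ℕ, a.Coprime (Fintype.card (GG q F K)) →
      ∃ π : Equiv.Perm (Fin n), ∀ i, ψ i ^ a = ψ (π i)) (σ : ℂ →+* ℂ) :
    ∃ π : Equiv.Perm (Fin n), ∀ i, cj σ (cf q F K (ψ i)) = cf q F K (ψ (π i)) := by
  set n := Fintype.card (GG q F K) with hn
  have hn0 : n ≠ 0 := Fintype.card_ne_zero
  have hnz : NeZero n := ⟨hn0⟩
  obtain ⟨a, ha⟩ := exists_a n σ
  obtain ⟨π, hπ⟩ := hst (a : ZMod n).val (ZMod.val_coe_unit_coprime a)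
  refine ⟨π, fun i => ?_⟩
  rw [← hπ]
  apply MulChar.ext
  intro u
  rw [cj_apply, cf_apply, cf_apply, MonoidHom.pow_apply, Units.val_pow_eq_pow_val]
  have h1 : ((ψ i (mkG q F K u) : ℂˣ) : ℂ) ^ n = 1 := by
    rw [← Units.val_pow_eq_pow_val, ← map_pow, hn, pow_card_eq_one, map_one, Units.val_one]
  have h0 : IsPrimitiveRoot (ZMod.stdAddChar (N := n) 1) n := by
    have e : ZMod.stdAddChar (N := n) 1 = Complex.exp (2 * Real.pi * Complex.I / n) := by
      have := ZMod.stdAddChar_coe (N := n) 1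
      rw [Int.cast_one, Int.cast_one, mul_one] at this
      exact this
    rw [e]
    exact Complex.isPrimitiveRoot_exp n hn0
  obtain ⟨k, -, hk⟩ := h0.eq_pow_of_pow_eq_one h1
  rw [← hk, map_pow, ha, mul_one, ← pow_mul, mul_comm k, pow_mul]
  congr 1
  rw [std_one_pow, ZMod.natCast_zmod_val]

end

/-- the algebraic part of the central value of the twist of `E ⊗ M` by `δ` -/
noncomputable def xA {q g : ℕ} [NeZero q] (x : (f : ℕ) → DirichletCharacter ℂ f → ℂ)
    (χ : Fin g → DirichletCharacter ℂ q) {d : ℕ} [NeZero d] [NeZero (q * d)]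
    (δ : DirichletCharacter ℂ d) : ℂ :=
  ∏ i, ((if δ (-1) = 1 then 1 / 3 else 1) * x _ (XX δ (χ i)).primitiveCharacter *
    gaussSum δ⁻¹ (ZMod.stdAddChar (N := d)) / gsi (XX δ (χ i)))

lemma cj_XX {q d : ℕ} [NeZero q] [NeZero (q * d)] (σ : ℂ →+* ℂ) (δ : DirichletCharacter ℂ d)
    (χ : DirichletCharacter ℂ q) : cj σ (XX δ χ) = XX (cj σ δ) (cj σ χ) := by
  unfold XX
  apply MulChar.ext
  intro u
  rw [cj_apply, MulChar.mul_apply, map_mul, MulChar.mul_apply,
    DirichletCharacter.changeLevel_eq_cast_of_dvd, DirichletCharacter.changeLevel_eq_cast_of_dvd,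
    DirichletCharacter.changeLevel_eq_cast_of_dvd, DirichletCharacter.changeLevel_eq_cast_of_dvd,
    cj_apply, cj_apply]

section

variable {q : ℕ} [NeZero q] {F : Type} [Field F] [NumberField F] [IsCyclotomicExtension {q} ℚ F]
  {K : IntermediateField ℚ F} [Fintype (GG q F K)]

/-- **the action of the automorphisms of the coefficients** -/
theorem xA_conj (hodd : Odd (Fintype.card (GG q F K))) {x : (f : ℕ) → DirichletCharacter ℂ f → ℂ}
    {g : ℕ} {ψ : Fin g → (GG q F K →* ℂˣ)}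
    (hst : ∀ a : ℕ, a.Coprime (Fintype.card (GG q F K)) →
      ∃ π : Equiv.Perm (Fin g), ∀ i, ψ i ^ a = ψ (π i))
    {d : ℕ} [NeZero d] [NeZero (q * d)] (δ : DirichletCharacter ℂ d)
    (hx : ∀ (σ : ℂ →+* ℂ) (i : Fin g), x _ (cj σ (XX δ (cf q F K (ψ i))).primitiveCharacter) =
      σ (x _ (XX δ (cf q F K (ψ i))).primitiveCharacter)) (σ : ℂ →+* ℂ) :
    xA x (fun i => cf q F K (ψ i)) (cj σ δ) = σ (xA x (fun i => cf q F K (ψ i)) δ) := by
  obtain ⟨π, hπ⟩ := exists_pi_conj hst σ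
  obtain ⟨a, ha⟩ := exists_a (q * d) σ
  have hsgn : (cj σ δ) (-1) = 1 ↔ δ (-1) = 1 := by
    rw [cj_apply]
    constructor
    · intro h
      exact σ.injective (by rw [h, map_one])
    · intro h
      rw [h, map_one]
  unfold xA
  rw [map_prod, ← Equiv.prod_comp π (fun i => (if (cj σ δ) (-1) = 1 then 1 / 3 else 1) *
    x _ (XX (cj σ δ) (cf q F K (ψ i))).primitiveCharacter *
    gaussSum (cj σ δ)⁻¹ (ZMod.stdAddChar (N := d)) / gsi (XX (cj σ δ) (cf q F K (ψ i))))]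
  have hc0 : ∀ i, (cf q F K (ψ (π i))) (ZMod.unitsMap (dvd_mul_right q d) a : ZMod q) ≠ 0 :=
    fun i => ((ZMod.unitsMap (dvd_mul_right q d) a).isUnit.map (cf q F K (ψ (π i)))).ne_zero
  have hd0 : (cj σ δ) (ZMod.unitsMap (dvd_mul_left d q) a : ZMod d) ≠ 0 :=
    ((ZMod.unitsMap (dvd_mul_left d q) a).isUnit.map (cj σ δ)).ne_zero
  have key : ∀ i, σ ((if δ (-1) = 1 then 1 / 3 else 1) *
      x _ (XX δ (cf q F K (ψ i))).primitiveCharacter *
      gaussSum δ⁻¹ (ZMod.stdAddChar (N := d)) / gsi (XX δ (cf q F K (ψ i)))) =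
      ((if (cj σ δ) (-1) = 1 then 1 / 3 else 1) *
        x _ (XX (cj σ δ) (cf q F K (ψ (π i)))).primitiveCharacter *
        gaussSum (cj σ δ)⁻¹ (ZMod.stdAddChar (N := d)) /
          gsi (XX (cj σ δ) (cf q F K (ψ (π i))))) *
      ((cf q F K (ψ (π i))) (ZMod.unitsMap (dvd_mul_right q d) a : ZMod q))⁻¹ := by
    intro i
    rw [map_div₀, map_mul, map_mul, ← hx σ i, fun_conj x, cj_XX, hπ i, gsi_conj ha, cj_XX, hπ i,
      XX_unit]
    have h1 : σ (if δ (-1) = 1 then (1 / 3 : ℂ) else 1) =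
        if (cj σ δ) (-1) = 1 then 1 / 3 else 1 := by
      by_cases h : δ (-1) = 1
      · rw [if_pos h, if_pos (hsgn.2 h), map_div₀, map_one, map_ofNat]
      · rw [if_neg h, if_neg (fun h' => h (hsgn.1 h')), map_one]
    rw [h1]
    have h2 : (cj σ δ⁻¹) (ZMod.unitsMap (dvd_mul_left d q) a : ZMod d) *
        σ (gaussSum δ⁻¹ (ZMod.stdAddChar (N := d))) =
        gaussSum (cj σ δ⁻¹) (ZMod.stdAddChar (N := d)) := gauss_conj' (dvd_mul_left d q) ha δ⁻¹
    have h3 : cj σ δ⁻¹ = (cj σ δ)⁻¹ := by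
      apply MulChar.ext
      intro u
      rw [cj_apply, MulChar.inv_apply_eq_inv', MulChar.inv_apply_eq_inv', cj_apply, map_inv₀]
    rw [h3, MulChar.inv_apply_eq_inv'] at h2
    rw [← h2]
    field_simp
  rw [prod_congr rfl fun i _ => key i, prod_mul_distrib, prod_inv_distrib]
  have h5 : ∏ i, (cf q F K (ψ (π i))) (ZMod.unitsMap (dvd_mul_right q d) a : ZMod q) = 1 := by
    rw [Equiv.prod_comp π (fun i => (cf q F K (ψ i)) (ZMod.unitsMap (dvd_mul_right q d) a : ZMod q))]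
    have h6 := congrArg (fun z : ℂˣ => (z : ℂ))
      (prod_one hodd hst (mkG q F K (ZMod.unitsMap (dvd_mul_right q d) a)))
    simp only [Units.val_one] at h6
    rw [← h6, Units.coe_prod]
    refine prod_congr rfl fun i _ => ?_
    rw [cf_apply]
  rw [h5, inv_one, mul_one]

end

section

variable {q : ℕ} [NeZero q] {F : Type} [Field F] [NumberField F] [IsCyclotomicExtension {q} ℚ F]
  {K : IntermediateField ℚ F} [Fintype (GG q F K)]

lemma XX_cop {d : ℕ} [NeZero d] [NeZero (q * d)] (hqd : q.Coprime d) {δ : DirichletCharacter ℂ d}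
    (hδ : δ.IsPrimitive) (χ : DirichletCharacter ℂ q) (p : Nat.Primes) :
    (XX δ χ).primitiveCharacter ((p : ℕ) : ZMod (XX δ χ).conductor) =
      δ ((p : ℕ) : ZMod d) * χ.primitiveCharacter ((p : ℕ) : ZMod χ.conductor) :=
  (Pool.Agent.Y44.XF.s_prim q d hqd χ δ hδ).2 p p.2

lemma gsi_ne {N : ℕ} [NeZero N] (Y : DirichletCharacter ℂ N) : gsi Y ≠ 0 := by
  have : NeZero Y.conductor := ⟨Y.conductor_ne_zero⟩
  exact Pool.Agent.W440.TW.gauss_ne_zero _
    (Pool.Agent.W440.TW.inv_primitive _ Y.primitiveCharacter_isPrimitive)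

/-- **the `L`-function and its value** -/
theorem xA_val (hqp : IsPrimePow q) {x : (f : ℕ) → DirichletCharacter ℂ f → ℂ}
    {g : ℕ} {ρ : (ZMod q)ˣ →* GL (Fin g) ℤ} {ψ : Fin g → (GG q F K →* ℂˣ)}
    (hdet : ∀ (x y : ℂ) (u : (ZMod q)ˣ),
        (1 - x • ((ρ u : Matrix (Fin g) (Fin g) ℤ).map (Int.cast : ℤ → ℂ)) +
          y • ((ρ u : Matrix (Fin g) (Fin g) ℤ).map (Int.cast : ℤ → ℂ)) ^ 2).det =
            ∏ i, (1 - x * cf q F K (ψ i) (u : ZMod q) + y * cf q F K (ψ i) (u : ZMod q) ^ 2))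
    (hne : ∀ i, ψ i ≠ 1) {d : ℕ} [NeZero d] [NeZero (q * d)] (hqd : q.Coprime d)
    {δ : DirichletCharacter ℂ d} (hδ : δ.IsPrimitive) (hev : ∀ i, cf q F K (ψ i) (-1) = 1)
    (hx : ∀ i : Fin g, haveI : NeZero (XX δ (cf q F K (ψ i))).conductor :=
        ⟨(XX δ (cf q F K (ψ i))).conductor_ne_zero⟩
      IsPart (XX δ (cf q F K (ψ i))).primitiveCharacter
        (x _ (XX δ (cf q F K (ψ i))).primitiveCharacter)) :
    ∃ H : ℂ → ℂ, Differentiable ℂ H ∧
      (∀ z : ℂ, 3 / 2 < z.re → HasProd (fun p : Nat.Primes => EF ρ δ p z) (H z)) ∧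
      gaussSum δ⁻¹ (ZMod.stdAddChar (N := d)) ^ g * H 1 =
        pe δ ^ g * xA x (fun i => cf q F K (ψ i)) δ := by
  choose L hL hE hv _ using fun i => (hx i).value
  refine ⟨fun z => ∏ i, L i z, Differentiable.fun_finsetProd fun i _ => hL i, ?_, ?_⟩
  · intro z hz
    refine (hasProd_prod fun i _ => hE i z hz).congr_fun fun p => ?_
    have e1 : ((p : ℕ) : ℂ) ^ (-2 * z) = (((p : ℕ) : ℂ) ^ (-z)) ^ 2 := by
      rw [← Complex.cpow_nat_mul]
      congr 1
      push_cast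
      ring
    by_cases hpq : (p : ℕ).Coprime q
    · unfold EF
      rw [dif_pos hpq, hdet, ← prod_inv_distrib]
      refine prod_congr rfl fun i _ => ?_
      rw [XX_cop hqd hδ, prim_cop _ hpq, ZMod.coe_unitOfCoprime]
      congr 1
      ring
    · unfold EF
      rw [dif_neg hpq]
      symm
      have hpq' : (p : ℕ) ∣ q := by
        by_contra h
        exact hpq ((Nat.Prime.coprime_iff_not_dvd p.2).2 h)
      refine prod_eq_one fun i _ => ?_
      rw [XX_cop hqd hδ, prim_dvd hqp (fun h => hne i (cf_inj (h.trans cf_one.symm))) p.2 hpq']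
      ring_nf
  · show _ * ∏ i, L i 1 = _
    unfold xA
    have hgi : ∀ i, gsi (XX δ (cf q F K (ψ i))) * L i 1 =
        per (XX δ (cf q F K (ψ i))).primitiveCharacter *
          x _ (XX δ (cf q F K (ψ i))).primitiveCharacter := hv
    have hpr : ∀ i, per (XX δ (cf q F K (ψ i))).primitiveCharacter =
        pe δ * (if δ (-1) = 1 then 1 / 3 else 1) := by
      intro i
      unfold per pe
      rw [prim_par, XX_neg, hev, one_mul]
      split_ifs <;> ring
    have e2 : gaussSum δ⁻¹ (ZMod.stdAddChar (N := d)) ^ g * ∏ i, L i 1 =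
        ∏ i, (gaussSum δ⁻¹ (ZMod.stdAddChar (N := d)) * L i 1) := by
      rw [prod_mul_distrib, prod_const, card_univ, Fintype.card_fin]
    have e3 : pe δ ^ g = ∏ _i : Fin g, pe δ := by
      rw [prod_const, card_univ, Fintype.card_fin]
    rw [e2, e3, ← prod_mul_distrib]
    refine prod_congr rfl fun i _ => ?_
    have h0 := gsi_ne (XX δ (cf q F K (ψ i)))
    have h1 := hgi i
    rw [hpr] at h1
    field_simp
    linear_combination (gaussSum δ⁻¹ (ZMod.stdAddChar (N := d))) * h1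

lemma vals_int {f : ℕ} [NeZero f] {ρ : DirichletCharacter ℂ f} {z : ℂ} (hz : z ∈ vals ρ) :
    IsIntegral ℤ z := by
  have h1 : vals ρ ≤ integralClosure ℤ ℂ := by
    unfold vals
    rw [Algebra.adjoin_le_iff]
    rintro _ ⟨x, rfl⟩
    show IsIntegral ℤ (ρ x)
    by_cases hx : IsUnit x
    · obtain ⟨u, rfl⟩ := hx
      refine IsIntegral.of_pow (n := Fintype.card (ZMod f)ˣ) Fintype.card_pos ?_
      rw [← map_pow, ← Units.val_pow_eq_pow_val, pow_card_eq_one, Units.val_one, map_one]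
      exact isIntegral_one
    · rw [MulChar.map_nonunit _ hx]
      exact isIntegral_zero
  exact h1 hz

lemma gauss_U2 {f : ℕ} [NeZero f] (hf : Odd f) {ρ : DirichletCharacter ℂ f} (hρ : ρ.IsPrimitive) :
    U2 (gaussSum ρ (ZMod.stdAddChar (N := f))) ∧ U2 (gaussSum ρ⁻¹ (ZMod.stdAddChar (N := f))) := by
  obtain ⟨σ, hσ, he⟩ : ∃ σ : ℂ, (σ = 1 ∨ σ = -1) ∧ ρ (-1) = σ := ⟨_, ρ.even_or_odd, rfl⟩
  have h1 := gauss_mulS hρ hσ he
  have h2 : U2 (σ * f) := by
    have h3 : U2 (f : ℂ) := by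
      have := U2.odd (n := (f : ℤ)) (by exact_mod_cast hf)
      simpa using this
    rcases hσ with rfl | rfl
    · rwa [one_mul]
    · rw [neg_one_mul]
      exact h3.neg
  rw [← h1] at h2
  exact ⟨h2.of_dvd (gauss_int _) (gauss_int _),
    U2.of_dvd (gauss_int _) (gauss_int _) (by rwa [mul_comm])⟩

/-- **the algebraic part is a unit at two** -/
theorem xA_unit (hqo : Odd q) {x : (f : ℕ) → DirichletCharacter ℂ f → ℂ}
    {g : ℕ} {ψ : Fin g → (GG q F K →* ℂˣ)} {d : ℕ} [NeZero d] [NeZero (q * d)]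
    (hdo : Odd d) {δ : DirichletCharacter ℂ d} (hδ : δ.IsPrimitive)
    (hx : ∀ i : Fin g, U2 (x _ (XX δ (cf q F K (ψ i))).primitiveCharacter)) :
    ∃ m : ℤ, Odd m ∧ U2 (m * xA x (fun i => cf q F K (ψ i)) δ) := by
  have key : ∀ i, ∃ m : ℤ, Odd m ∧ U2 (m * ((if δ (-1) = 1 then 1 / 3 else 1) *
      x _ (XX δ (cf q F K (ψ i))).primitiveCharacter *
      gaussSum δ⁻¹ (ZMod.stdAddChar (N := d)) / gsi (XX δ (cf q F K (ψ i))))) := by
    intro i
    set Y := XX δ (cf q F K (ψ i)) with hY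
    have hz : NeZero Y.conductor := ⟨Y.conductor_ne_zero⟩
    obtain ⟨σ, hσ, he⟩ : ∃ σ : ℂ, (σ = 1 ∨ σ = -1) ∧ Y (-1) = σ := ⟨_, Y.even_or_odd, rfl⟩
    have h1 : gs Y * gsi Y = σ * Y.conductor := gs_mulS hσ he
    have hco : Odd Y.conductor := Odd.of_dvd_nat (hqo.mul hdo) Y.conductor_dvd_level
    have h2 : U2 (gs Y) := (gauss_U2 hco Y.primitiveCharacter_isPrimitive).1
    obtain ⟨e, he2, hse⟩ : ∃ e : ℤ, Odd e ∧ (e : ℂ) = σ := by
      rcases hσ with h | h
      · exact ⟨1, by decide, by rw [h]; norm_num⟩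
      · exact ⟨-1, by decide, by rw [h]; norm_num⟩
    refine ⟨3 * (e * Y.conductor), (by decide : Odd (3 : ℤ)).mul (he2.mul (by exact_mod_cast hco)),
      ?_⟩
    have h3 := gsi_ne Y
    have h4 : ((3 * (e * Y.conductor) : ℤ) : ℂ) * ((if δ (-1) = 1 then 1 / 3 else 1) *
        x _ Y.primitiveCharacter * gaussSum δ⁻¹ (ZMod.stdAddChar (N := d)) / gsi Y) =
        ((if δ (-1) = 1 then (1 : ℤ) else 3 : ℤ) : ℂ) * x _ Y.primitiveCharacter *
          gaussSum δ⁻¹ (ZMod.stdAddChar (N := d)) * gs Y := by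
      have h5 : ((3 * (e * Y.conductor) : ℤ) : ℂ) = 3 * (gs Y * gsi Y) := by
        rw [h1]
        push_cast
        rw [hse]
      rw [h5]
      split_ifs
      · push_cast
        field_simp
      · push_cast
        field_simp
    rw [h4]
    refine (((U2.odd ?_).mul (hx i)).mul (gauss_U2 hdo hδ).2).mul h2
    split_ifs <;> decide
  choose m hm hU using key
  refine ⟨∏ i, m i, ?_, ?_⟩
  · exact Finset.prod_induction _ (fun n : ℤ => Odd n) (fun a b => Odd.mul) (by decide) fun i _ => hm i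
  · unfold xA
    push_cast
    rw [← prod_mul_distrib]
    exact U2.prod _ _ fun i _ => hU i

end

end Pool.Agent.X218.TP
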