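import Pool.Agent.X218.TP.Core

/-!
# The twisted sums are invertible modulo two
-/

set_option autoImplicit false

open Finset NumberField IsCyclotomicExtension.Rat H300.HW

namespace Pool.Agent.X218.TP

open scoped Classical

open Pool.Agent.Y687 (Symb Symb2)

open Pool.Agent.Y682.XT Pool.Agent.Y682.XD Pool.Agent.Y682.XF

/-- an element which is nonzero in all fields of characteristic two is invertible modulo two -/
lemma exists_inv (A : Subalgebra ℤ ℂ) {x : ℂ} (hx : x ∈ A)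
    (h : ∀ (k : Type) [Field k] [CharP k 2] (φ : A →+* k), φ ⟨x, hx⟩ ≠ 0) :
    ∃ a ∈ A, ∃ b ∈ A, a * x + 2 * b = 1 := by
  have key : Ideal.span {(⟨x, hx⟩ : A), (2 : A)} = ⊤ := by
    by_contra hne
    obtain ⟨M, hM, hle⟩ := Ideal.exists_le_maximal _ hne
    have h2 : (2 : A) ∈ M := hle (Ideal.subset_span (by simp))
    have h1 : (⟨x, hx⟩ : A) ∈ M := hle (Ideal.subset_span (by simp))
    letI : Field (A ⧸ M) := Ideal.Quotient.field M
    haveI : CharP (A ⧸ M) 2 := by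
      refine CharTwo.of_one_ne_zero_of_two_eq_zero one_ne_zero ?_
      have := Ideal.Quotient.eq_zero_iff_mem.2 h2
      rwa [map_ofNat] at this
    exact h (A ⧸ M) (Ideal.Quotient.mk M) (Ideal.Quotient.eq_zero_iff_mem.2 h1)
  rw [Ideal.eq_top_iff_one, Ideal.mem_span_pair] at key
  obtain ⟨a, b, hab⟩ := key
  refine ⟨a, a.2, b, b.2, ?_⟩
  have h3 := congrArg (fun z : A => (z : ℂ)) hab
  simp only [Subalgebra.coe_add, Subalgebra.coe_mul, Subalgebra.coe_one] at h3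
  rw [← h3]
  have h4 : (((2 : A) : A) : ℂ) = 2 := rfl
  rw [h4]
  ring

/-- roots of unity of odd order stay different modulo two -/
lemma odd_one {A : Subalgebra ℤ ℂ} {k : Type} [Field k] [CharP k 2] (φ : A →+* k) {z : A} {m : ℕ}
    (hm : Odd m) (hz : z ^ m = 1) (h : φ z = 1) : z = 1 := by
  by_contra hne
  have h1 : (z - 1) * ∑ j ∈ range m, z ^ j = 0 := by
    rw [mul_geom_sum, hz, sub_self]
  have h2 : ∑ j ∈ range m, z ^ j = 0 :=
    (mul_eq_zero.1 h1).resolve_left (sub_ne_zero.2 hne)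
  have h3 := congrArg φ h2
  rw [map_sum, map_zero] at h3
  simp only [map_pow, h, one_pow, sum_const, card_range, nsmul_eq_mul, mul_one] at h3
  rw [CharP.cast_eq_zero_iff k 2] at h3
  exact (Nat.not_even_iff_odd.2 hm) (even_iff_two_dvd.2 h3)

/-- roots of unity of two-power order are one modulo two -/
lemma two_one {k : Type} [Field k] [CharP k 2] {y : k} {n : ℕ} (h : y ^ 2 ^ n = 1) : y = 1 := by
  have : Fact (Nat.Prime 2) := ⟨Nat.prime_two⟩
  have h1 : (y - 1) ^ 2 ^ n = 0 := by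
    rw [sub_pow_char_pow, h, one_pow, sub_self]
  exact sub_eq_zero.1 (eq_zero_of_pow_eq_zero h1)

/-- the Chinese remainder theorem for units -/
lemma exists_crt {f d : ℕ} [NeZero f] [NeZero d] (hfd : f.Coprime d) (a : (ZMod f)ˣ) (b : (ZMod d)ˣ) :
    ∃ u : (ZMod (f * d))ˣ, ZMod.unitsMap (dvd_mul_right f d) u = a ∧
      ZMod.unitsMap (dvd_mul_left d f) u = b := by
  obtain ⟨n, hn1, hn2⟩ := Nat.chineseRemainder hfd (a : ZMod f).val (b : ZMod d).val
  have e1 : ((n : ℕ) : ZMod f) = a := by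
    rw [(ZMod.natCast_eq_natCast_iff _ _ _).2 hn1, ZMod.natCast_zmod_val]
  have e2 : ((n : ℕ) : ZMod d) = b := by
    rw [(ZMod.natCast_eq_natCast_iff _ _ _).2 hn2, ZMod.natCast_zmod_val]
  have c1 : n.Coprime f := (ZMod.isUnit_iff_coprime n f).1 (by rw [e1]; exact a.isUnit)
  have c2 : n.Coprime d := (ZMod.isUnit_iff_coprime n d).1 (by rw [e2]; exact b.isUnit)
  refine ⟨ZMod.unitOfCoprime n (Nat.Coprime.mul_right c1 c2), Units.ext ?_, Units.ext ?_⟩
  · rw [ZMod.unitsMap_val, ZMod.coe_unitOfCoprime, ZMod.cast_natCast (dvd_mul_right f d), e1]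
  · rw [ZMod.unitsMap_val, ZMod.coe_unitOfCoprime, ZMod.cast_natCast (dvd_mul_left d f), e2]

section

variable {q : ℕ} [NeZero q] {L : Type} [Field L] [NumberField L] [IsCyclotomicExtension {q} ℚ L]
  {K : IntermediateField ℚ L}

/-- **the twisted sum is invertible modulo two** -/
theorem unit2 (hH : S_HECKE) {s : ℚ → ℤ} {a : ℕ → ℤ} (H : Symb2 s a)
    (hevn : ∀ p : ℕ, p.Prime → ¬ p ∣ 14 → (2 : ℤ) ∣ a p) (hq : Odd q) (h1 : 1 < q)
    (hco : q.Coprime 14) (hre : IsRe q L K) (hs : SameP q L K) (hodd : Odd (Module.finrank ℚ K))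
    {R : Finset (ZMod q)ˣ} (hR : IsHalf q L K R) (hSg : Sg q L K R)
    {f d : ℕ} [NeZero f] [NeZero d] [NeZero (f * d)] (hfq : f ∣ q) (hdsq : Squarefree d)
    (τ : (ZMod (f * d))ˣ → ℤ) (c : ℤ)
    (hτ : ∀ u, (2 : ℤ) ∣ τ u - s (((u : ZMod (f * d)).val : ℚ) / ((f * d : ℕ) : ℚ)) - c)
    (χ' : GG q L K →* ℂˣ)
    (hd : ∀ p : ℕ, p.Prime → p ∣ d → ¬ p ∣ 14 * q ∧ ∀ t : (ZMod q)ˣ, (t : ZMod q) = (p : ZMod q) →
      χ' (mkG q L K t) ≠ 1)
    (hg2 : ∀ t : (ZMod q)ˣ, (t : ZMod q) = 2 → χ' (mkG q L K t) ≠ 1)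
    (hg7 : ∀ t : (ZMod q)ˣ, (t : ZMod q) = 7 → χ' (mkG q L K t) ≠ 1)
    (hχ' : χ' ≠ 1) (hcc : (cf q L K χ').conductor = f)
    (δ : (ZMod d)ˣ → ℂ) {n : ℕ} (hδ1 : δ 1 = 1) (hδ : ∀ u, δ u ^ 2 ^ n = 1)
    (ρ : (ZMod (f * d))ˣ → ℂ)
    (hρ : ∀ u, ρ u = ((χ' (mkG q L K (sect hfq (ZMod.unitsMap (dvd_mul_right f d) u))) : ℂˣ) : ℂ) *
      δ (ZMod.unitsMap (dvd_mul_left d f) u)) :
    ∃ a ∈ Algebra.adjoin ℤ (Set.range ρ), ∃ b ∈ Algebra.adjoin ℤ (Set.range ρ),
      a * (∑ u ∈ PU (f * d), ρ u * (τ u : ℂ)) + 2 * b = 1 := by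
  have hfG : Fintype (GG q L K) := Fintype.ofFinite _
  set A := Algebra.adjoin ℤ (Set.range ρ) with hA
  have hmem : ∀ u, ρ u ∈ A := fun u => Algebra.subset_adjoin ⟨u, rfl⟩
  have hx : ∑ u ∈ PU (f * d), ρ u * (τ u : ℂ) ∈ A :=
    Subalgebra.sum_mem _ fun u _ => Subalgebra.mul_mem _ (hmem u) (A.algebraMap_mem (τ u))
  have hfd : f.Coprime d := by
    refine Nat.coprime_of_dvd ?_
    intro p hp hpf hpd
    exact (hd p hp hpd).1 (dvd_mul_of_dvd_right (hpf.trans hfq) _)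
  -- the character depends only on the class modulo the conductor
  have hval : ∀ c : (ZMod q)ˣ, ((χ' (mkG q L K (sect hfq (ZMod.unitsMap hfq c))) : ℂˣ) : ℂ) =
      ((χ' (mkG q L K c) : ℂˣ) : ℂ) := by
    intro c
    subst hcc
    have h2 : ∀ c : (ZMod q)ˣ, ((χ' (mkG q L K c) : ℂˣ) : ℂ) =
        (cf q L K χ').primitiveCharacter ((ZMod.unitsMap hfq c :
          (ZMod (cf q L K χ').conductor)ˣ) : ZMod (cf q L K χ').conductor) := by
      intro c
      rw [← cf_apply]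
      exact prim_unit _ c
    rw [h2, h2, map_sect]
  have hχA : ∀ g : GG q L K, ((χ' g : ℂˣ) : ℂ) ∈ A := by
    intro g
    obtain ⟨c, rfl⟩ := mkG_surj g
    obtain ⟨u, hu1, hu2⟩ := exists_crt hfd (ZMod.unitsMap hfq c) 1
    have h3 := hmem u
    rw [hρ, hu1, hu2, hδ1, mul_one, hval] at h3
    exact h3
  have hδA : ∀ v : (ZMod d)ˣ, δ v ∈ A := by
    intro v
    obtain ⟨u, hu1, hu2⟩ := exists_crt hfd (ZMod.unitsMap hfq 1) v
    have h3 := hmem u
    rw [hρ, hu1, hu2, hval, map_one, map_one, Units.val_one, one_mul] at h3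
    exact h3
  refine exists_inv A hx ?_
  intro k _ _ φ
  -- the reduction of the character
  let ψ : GG q L K →* k :=
    { toFun := fun g => φ ⟨_, hχA g⟩
      map_one' := by
        have : (⟨((χ' 1 : ℂˣ) : ℂ), hχA 1⟩ : A) = 1 := by
          apply Subtype.ext
          show ((χ' 1 : ℂˣ) : ℂ) = 1
          rw [map_one, Units.val_one]
        rw [this, map_one]
      map_mul' := by
        intro g h
        have : (⟨((χ' (g * h) : ℂˣ) : ℂ), hχA (g * h)⟩ : A) = ⟨_, hχA g⟩ * ⟨_, hχA h⟩ := by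
          apply Subtype.ext
          show ((χ' (g * h) : ℂˣ) : ℂ) = ((χ' g : ℂˣ) : ℂ) * ((χ' h : ℂˣ) : ℂ)
          rw [map_mul, Units.val_mul]
        rw [this, map_mul] }
  have hcard := card_odd hodd (q := q) (L := L) (K := K)
  have hker : ∀ g, ψ g = 1 ↔ χ' g = 1 := by
    intro g
    constructor
    · intro h
      have h2 := odd_one φ (z := ⟨_, hχA g⟩) hcard (by
        apply Subtype.ext
        show ((χ' g : ℂˣ) : ℂ) ^ _ = 1
        rw [← Units.val_pow_eq_pow_val, ← map_pow, pow_card_eq_one, map_one, Units.val_one]) h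
      have h3 := congrArg (fun z : A => (z : ℂ)) h2
      exact Units.ext h3
    · intro h
      have : (⟨((χ' g : ℂˣ) : ℂ), hχA g⟩ : A) = 1 := by
        apply Subtype.ext
        show ((χ' g : ℂˣ) : ℂ) = 1
        rw [h, Units.val_one]
      show φ ⟨_, hχA g⟩ = 1
      rw [this, map_one]
  have hcore := core3 hH H hevn hq h1 hco hre hs hR hSg hfq hdsq τ c hτ χ' hd hg2 hg7 ψ hχ' hker hcc
  intro h0
  apply hcore
  rw [← h0]
  have e1 : (⟨∑ u ∈ PU (f * d), ρ u * (τ u : ℂ), hx⟩ : A) =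
      ∑ u ∈ PU (f * d), (⟨_, hmem u⟩ : A) * ((τ u : ℤ) : A) := by
    apply Subtype.ext
    rw [AddSubmonoidClass.coe_finset_sum]
    rfl
  rw [e1, map_sum]
  refine sum_congr rfl fun u _ => ?_
  rw [map_mul, map_intCast]
  congr 1
  have e2 : (⟨ρ u, hmem u⟩ : A) =
      ⟨_, hχA (mkG q L K (sect hfq (ZMod.unitsMap (dvd_mul_right f d) u)))⟩ *
        ⟨_, hδA (ZMod.unitsMap (dvd_mul_left d f) u)⟩ := Subtype.ext (hρ u)
  have e3 : φ ⟨_, hδA (ZMod.unitsMap (dvd_mul_left d f) u)⟩ = 1 := by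
    apply two_one (n := n)
    rw [← map_pow]
    have : (⟨_, hδA (ZMod.unitsMap (dvd_mul_left d f) u)⟩ : A) ^ 2 ^ n = 1 :=
      Subtype.ext (hδ _)
    rw [this, map_one]
  rw [e2, map_mul, e3, mul_one]
  rfl

end

end Pool.Agent.X218.TP
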