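import Pool.Agent.X218.TP.Unit
import Pool.Agent.Y687.Lval2

/-!
# The algebraic parts of the central values of the twists of `X_0(14)`
-/

set_option autoImplicit false

open Finset NumberField IsCyclotomicExtension.Rat H300.HW

namespace Pool.Agent.X218.TP

open scoped Classical

open Pool.Agent.W97.MT (ap E14 II)

open Pool.Agent.Y687 (Symb Symb2)

open Pool.Agent.Y682.XT Pool.Agent.Y682.XD Pool.Agent.Y682.XF

/-- the algebraic part: a sum of modular symbols -/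
noncomputable def X (s t : ℚ → ℤ) {f : ℕ} [NeZero f] (ρ : DirichletCharacter ℂ f) : ℂ :=
  ∑ u ∈ PU f, ρ⁻¹ (u : ZMod f) *
    (((if ρ (-1) = 1 then s else t) (((u : ZMod f).val : ℚ) / f) : ℤ) : ℂ)

lemma inv_neg_one {f : ℕ} (ρ : DirichletCharacter ℂ f) : ρ⁻¹ (-1) = ρ (-1) := by
  rw [MulChar.inv_apply_eq_inv']
  rcases ρ.even_or_odd with h | h
  · rw [h, inv_one]
  · rw [h]; norm_num

/-- the values -/
theorem val_prim {s t : ℚ → ℤ} {Op Om : ℝ} (hSy : Sy s t Op Om) {f : ℕ} [NeZero f] (h1 : 1 < f)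
    (hco : f.Coprime 14) (ρ : DirichletCharacter ℂ f) {G x : ℂ}
    (hG : G * x = ∑ u : (ZMod f)ˣ, ρ⁻¹ (u : ZMod f) * II (((u : ZMod f).val : ℚ) / f)) :
    G * x = (if ρ (-1) = 1 then 2 * (Op : ℂ) / 3 else 2 * Om * Complex.I) * X s t ρ := by
  have hfo : Odd f := by
    have : f.Coprime 2 := Nat.Coprime.coprime_dvd_right (by norm_num) hco
    exact Nat.coprime_two_right.1 this
  have hi := inv_neg_one ρ
  rw [hG]
  unfold X
  by_cases h : ρ (-1) = 1
  · rw [II_sum hSy.re hfo h1 (ρ := ρ⁻¹) (by rw [hi, h]), if_pos h, if_pos h]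
  · have h2 : ρ (-1) = -1 := ρ.even_or_odd.resolve_left h
    have h3 := II_sum_odd (t := t) (Om := Om) (f := f) (fun u => (hSy.im _ (by
      refine Nat.Coprime.coprime_dvd_left ?_ hco
      have h4 := Rat.den_dvd ((u : ZMod f).val : ℤ) (f : ℤ)
      rw [Rat.divInt_eq_div, Int.cast_natCast, Int.cast_natCast] at h4
      exact Int.natCast_dvd_natCast.1 h4)).1) hfo h1 (ρ := ρ⁻¹) (by rw [hi, h2])
    rw [h3, if_neg h, if_neg h]

/-- the action of the automorphisms of the coefficients -/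
theorem X_conj (s t : ℚ → ℤ) {f : ℕ} [NeZero f] (ρ : DirichletCharacter ℂ f) (σ : ℂ →+* ℂ) :
    X s t (ρ.ringHomComp σ) = σ (X s t ρ) := by
  unfold X
  have h1 : (ρ.ringHomComp σ) (-1) = 1 ↔ ρ (-1) = 1 := by
    rw [MulChar.ringHomComp_apply]
    constructor
    · intro h
      exact σ.injective (by rw [h, map_one])
    · intro h
      rw [h, map_one]
  rw [map_sum]
  refine sum_congr rfl fun u _ => ?_
  rw [map_mul, map_intCast, MulChar.inv_apply_eq_inv', MulChar.inv_apply_eq_inv',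
    MulChar.ringHomComp_apply, map_inv₀]
  congr 1
  by_cases h : ρ (-1) = 1
  · rw [if_pos h, if_pos (h1.2 h)]
  · rw [if_neg h, if_neg (fun h' => h (h1.1 h'))]

lemma inv_mem {f : ℕ} [NeZero f] (ρ : DirichletCharacter ℂ f) (u : (ZMod f)ˣ) :
    ρ⁻¹ (u : ZMod f) ∈ Algebra.adjoin ℤ (Set.range fun a : ZMod f => ρ a) := by
  refine Algebra.subset_adjoin ⟨((u⁻¹ : (ZMod f)ˣ) : ZMod f), ?_⟩
  show ρ ((u⁻¹ : (ZMod f)ˣ) : ZMod f) = _
  rw [MulChar.inv_apply_eq_inv']
  have h1 : ρ ((u⁻¹ : (ZMod f)ˣ) : ZMod f) * ρ (u : ZMod f) = 1 := by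
    rw [← map_mul, Units.inv_mul, map_one]
  exact eq_inv_of_mul_eq_one_left h1

theorem X_mem (s t : ℚ → ℤ) {f : ℕ} [NeZero f] (ρ : DirichletCharacter ℂ f) :
    X s t ρ ∈ Algebra.adjoin ℤ (Set.range fun a : ZMod f => ρ a) :=
  Subalgebra.sum_mem _ fun u _ => Subalgebra.mul_mem _ (inv_mem ρ u) (Subalgebra.algebraMap_mem _ _)

section

variable {q d : ℕ} [NeZero q] [NeZero d] [NeZero (q * d)] {L : Type} [Field L] [NumberField L]
  [IsCyclotomicExtension {q} ℚ L] {K : IntermediateField ℚ L}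

/-- **the algebraic part is invertible modulo two** -/
theorem X_unit (hH : S_HECKE) {s t : ℚ → ℤ} {a : ℕ → ℤ} (H : Symb2 s a)
    (hst : ∀ r : ℚ, r.den.Coprime 14 → (2 : ℤ) ∣ t r - s r - 1)
    (hevn : ∀ p : ℕ, p.Prime → ¬ p ∣ 14 → (2 : ℤ) ∣ a p) (hq : Odd q) (h1 : 1 < q)
    (hco : q.Coprime 14) (hre : IsRe q L K) (hs : SameP q L K) (hodd : Odd (Module.finrank ℚ K))
    {R : Finset (ZMod q)ˣ} (hR : IsHalf q L K R) (hSg : Sg q L K R) (hdsq : Squarefree d)
    {χ' : GG q L K →* ℂˣ} (hχ' : χ' ≠ 1)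
    (hd : ∀ p : ℕ, p.Prime → p ∣ d → ¬ p ∣ 14 * q ∧ ∀ t : (ZMod q)ˣ, (t : ZMod q) = (p : ZMod q) →
      χ' (mkG q L K t) ≠ 1)
    (hg2 : ∀ t : (ZMod q)ˣ, (t : ZMod q) = 2 → χ' (mkG q L K t) ≠ 1)
    (hg7 : ∀ t : (ZMod q)ˣ, (t : ZMod q) = 7 → χ' (mkG q L K t) ≠ 1)
    {δ : DirichletCharacter ℂ d} {n : ℕ} (hδ : δ ^ 2 ^ n = 1) :
    ∀ (F : ℕ) [NeZero F], F = (cf q L K χ').conductor * d → ∀ (hFN : F ∣ q * d)
      (ρ : DirichletCharacter ℂ F), DirichletCharacter.changeLevel hFN ρ = XX δ (cf q L K χ') →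
      ∃ a ∈ Algebra.adjoin ℤ (Set.range fun a : ZMod F => ρ a),
        ∃ b ∈ Algebra.adjoin ℤ (Set.range fun a : ZMod F => ρ a), a * X s t ρ + 2 * b = 1 := by
  intro F _ hF hFN ρ hρ
  subst hF
  have hfz : NeZero (cf q L K χ').conductor := ⟨(cf q L K χ').conductor_ne_zero⟩
  have hfq : (cf q L K χ').conductor ∣ q := (cf q L K χ').conductor_dvd_level
  have hci : (cf q L K χ'⁻¹).conductor = (cf q L K χ').conductor := by
    rw [cf_inv, DirichletCharacter.conductor_inv]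
  have hii : ∀ g, (χ'⁻¹) g ≠ 1 ↔ χ' g ≠ 1 := by
    intro g
    rw [MonoidHom.inv_apply, Ne, inv_eq_one]
  have hd14 : d.Coprime 14 := by
    refine Nat.coprime_of_dvd ?_
    intro p hp hpd hp14
    exact (hd p hp hpd).1 (dvd_mul_of_dvd_left hp14 _)
  have hFco : ((cf q L K χ').conductor * d).Coprime 14 :=
    Nat.Coprime.mul_left (Nat.Coprime.coprime_dvd_left hfq hco) hd14
  -- the values of the character
  have hval : ∀ u : (ZMod ((cf q L K χ').conductor * d))ˣ, ρ (u : ZMod _) =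
      ((χ' (mkG q L K (sect hfq (ZMod.unitsMap (dvd_mul_right _ d) u))) : ℂˣ) : ℂ) *
        δ ((ZMod.unitsMap (dvd_mul_left d _) u : (ZMod d)ˣ) : ZMod d) := by
    intro u
    obtain ⟨c, rfl⟩ := ZMod.unitsMap_surjective hFN u
    have e1 : ρ ((ZMod.unitsMap hFN c : (ZMod ((cf q L K χ').conductor * d))ˣ) :
        ZMod ((cf q L K χ').conductor * d)) = XX δ (cf q L K χ') (c : ZMod (q * d)) := by
      rw [← hρ, DirichletCharacter.changeLevel_eq_cast_of_dvd, ZMod.unitsMap_val]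
    have e2 : cf q L K χ' ((sect hfq (ZMod.unitsMap (dvd_mul_right _ d) (ZMod.unitsMap hFN c)) :
        (ZMod q)ˣ) : ZMod q) =
        cf q L K χ' ((ZMod.unitsMap (dvd_mul_right q d) c : (ZMod q)ˣ) : ZMod q) := by
      rw [prim_unit (cf q L K χ'), prim_unit (cf q L K χ')
        (ZMod.unitsMap (dvd_mul_right q d) c), map_sect]
      congr 2
      rw [← MonoidHom.comp_apply, ← MonoidHom.comp_apply, ZMod.unitsMap_comp, ZMod.unitsMap_comp]
    have e3 : ZMod.unitsMap (dvd_mul_left d _) (ZMod.unitsMap hFN c) =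
        ZMod.unitsMap (dvd_mul_left d q) c := by
      rw [← MonoidHom.comp_apply, ZMod.unitsMap_comp]
    rw [e1, XX_unit, e3, ← cf_apply, e2]
  -- the sign
  set c : ℤ := if ρ (-1) = 1 then 0 else 1 with hc
  have hτ : ∀ u : (ZMod ((cf q L K χ').conductor * d))ˣ, (2 : ℤ) ∣
      (if ρ (-1) = 1 then s else t) (((u : ZMod ((cf q L K χ').conductor * d)).val : ℚ) /
        (((cf q L K χ').conductor * d : ℕ) : ℚ)) -
      s (((u : ZMod ((cf q L K χ').conductor * d)).val : ℚ) /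
        (((cf q L K χ').conductor * d : ℕ) : ℚ)) - c := by
    intro u
    by_cases h : ρ (-1) = 1
    · rw [hc, if_pos h, if_pos h, sub_self, sub_zero]
      exact dvd_zero _
    · rw [hc, if_neg h, if_neg h]
      apply hst
      refine Nat.Coprime.coprime_dvd_left ?_ hFco
      have h4 := Rat.den_dvd ((u : ZMod ((cf q L K χ').conductor * d)).val : ℤ)
        (((cf q L K χ').conductor * d : ℕ) : ℤ)
      rw [Rat.divInt_eq_div, Int.cast_natCast, Int.cast_natCast] at h4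
      exact Int.natCast_dvd_natCast.1 h4
  have hmain := unit2 hH H hevn hq h1 hco hre hs hodd hR hSg hfq hdsq
    (fun u => (if ρ (-1) = 1 then s else t) (((u : ZMod ((cf q L K χ').conductor * d)).val : ℚ) /
        (((cf q L K χ').conductor * d : ℕ) : ℚ))) c hτ χ'⁻¹
    (fun p hp hpd => ⟨(hd p hp hpd).1, fun t ht => (hii _).2 ((hd p hp hpd).2 t ht)⟩)
    (fun t ht => (hii _).2 (hg2 t ht)) (fun t ht => (hii _).2 (hg7 t ht))
    (fun h => hχ' (MonoidHom.ext fun g => by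
      have h6 := DFunLike.congr_fun h g
      rw [MonoidHom.inv_apply, MonoidHom.one_apply, inv_eq_one] at h6
      exact h6)) hci
    (fun v => (δ (v : ZMod d))⁻¹) (n := n) (by rw [Units.val_one, map_one, inv_one])
    (fun v => by
      have h5 := congrArg (fun χ : DirichletCharacter ℂ d => χ (v : ZMod d)) hδ
      simp only [MulChar.pow_apply_coe, MulChar.one_apply_coe] at h5
      rw [inv_pow, h5, inv_one])
    (fun u => ρ⁻¹ (u : ZMod _)) (fun u => by
      rw [MulChar.inv_apply_eq_inv', hval, mul_inv, MonoidHom.inv_apply, Units.val_inv_eq_inv_val])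
  have hle : Algebra.adjoin ℤ (Set.range fun u : (ZMod ((cf q L K χ').conductor * d))ˣ =>
      ρ⁻¹ (u : ZMod _)) ≤ Algebra.adjoin ℤ (Set.range fun a : ZMod _ => ρ a) := by
    refine Algebra.adjoin_le ?_
    rintro _ ⟨u, rfl⟩
    exact inv_mem ρ u
  obtain ⟨a', ha, b, hb, hab⟩ := hmain
  exact ⟨a', hle ha, b, hle hb, hab⟩

end

end Pool.Agent.X218.TP
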